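import Pool.Agent.Lib.MP_25e49d_an.Sob.Base

/-! Basic properties of the right maximal function. -/

set_option autoImplicit false

open MeasureTheory Set Filter Topology
open scoped ENNReal NNReal

namespace Pool.Agent.Lib.MP_25e49d_an.Sob

variable {f : ℝ → ℝ} {L : ℝ≥0} {R B : ℝ}

theorem avg_split (hf : Continuous f) {a b c : ℝ} (hab : a < b) (hbc : b < c) :
    avg f a c * (c - a) = avg f a b * (b - a) + avg f b c * (c - b) := by
  rw [avg, avg, avg, div_mul_cancel₀ _ (sub_pos.2 (hab.trans hbc)).ne',
    div_mul_cancel₀ _ (sub_pos.2 hab).ne', div_mul_cancel₀ _ (sub_pos.2 hbc).ne',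
    intervalIntegral.integral_add_adjacent_intervals (hf.intervalIntegrable _ _)
      (hf.intervalIntegrable _ _)]

theorem Nice.bdd (h : Nice f L R) : ∃ B, ∀ x, f x ≤ B := by
  obtain ⟨B, hB⟩ := (isCompact_Icc (a := -R) (b := R)).bddAbove_image
    h.lip.continuous.continuousOn
  refine ⟨max B 0, fun x => ?_⟩
  rcases le_total R |x| with k | k
  · exact (h.zero x k).trans_le (le_max_right _ _)
  · exact (hB (mem_image_of_mem f (abs_le.1 k))).trans (le_max_left _ _)

theorem avg_le_GR (hf : Continuous f) (hB : ∀ x, f x ≤ B) {x y : ℝ} (hxy : x < y) :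
    avg f x y ≤ GR f x := by
  refine le_csSup ⟨B, ?_⟩ (mem_image_of_mem _ hxy)
  rintro _ ⟨z, hz, rfl⟩
  have k := intervalIntegral.integral_mono_on (μ := volume) (le_of_lt hz)
    (hf.intervalIntegrable _ _) (continuous_const.intervalIntegrable _ _) fun s _ => hB s
  rw [intervalIntegral.integral_const, smul_eq_mul] at k
  rw [avg, div_le_iff₀ (sub_pos.2 hz)]
  linarith

theorem GR_le {x v : ℝ} (h : ∀ y, x < y → avg f x y ≤ v) : GR f x ≤ v := by
  refine csSup_le (nonempty_Ioi.image _) ?_
  rintro _ ⟨z, hz, rfl⟩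
  exact h z hz

/-- `avg f x y → f x` as `y ↓ x`. -/
theorem tendsto_avg (hf : Continuous f) (x : ℝ) : Tendsto (avg f x) (𝓝[>] x) (𝓝 (f x)) := by
  have h1 : HasDerivAt (fun u => ∫ s in x..u, f s) (f x) x :=
    (hf.integral_hasStrictDerivAt x x).hasDerivAt
  have h2 := (hasDerivAt_iff_tendsto_slope_left_right.mp h1).2
  refine h2.congr fun y => ?_
  rw [slope_def_field]
  simp [avg]

theorem le_GR (hf : Continuous f) (hB : ∀ x, f x ≤ B) (x : ℝ) : f x ≤ GR f x := by
  refine le_of_tendsto (tendsto_avg hf x) ?_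
  filter_upwards [self_mem_nhdsWithin] with y hy
  exact avg_le_GR hf hB hy

theorem grlip_shift (h : LipschitzWith L f) {x y : ℝ} (hxy : x < y) (t : ℝ) :
    avg f x y ≤ avg f (x + t) (y + t) + L * |t| := by
  have hf := h.continuous
  have hd : 0 < y - x := sub_pos.mpr hxy
  have e1 : (∫ s in (x + t)..(y + t), f s) = ∫ s in x..y, f (s + t) :=
    (intervalIntegral.integral_comp_add_right f t).symm
  have hc : Continuous fun s => f (s + t) := hf.comp (continuous_id.add continuous_const)
  have h1 : (∫ s in x..y, f s) ≤ ∫ s in x..y, (f (s + t) + L * |t|) := by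
    refine intervalIntegral.integral_mono_on hxy.le (hf.intervalIntegrable _ _)
      ((hc.add continuous_const).intervalIntegrable _ _) fun s _ => ?_
    have h2 := h.dist_le_mul s (s + t)
    rw [Real.dist_eq, Real.dist_eq] at h2
    have h3 : |s - (s + t)| = |t| := by
      rw [show s - (s + t) = -t by ring, abs_neg]
    rw [h3] at h2
    have h4 := le_abs_self (f s - f (s + t))
    linarith
  rw [intervalIntegral.integral_add (hc.intervalIntegrable _ _)
    (continuous_const.intervalIntegrable _ _), intervalIntegral.integral_const, smul_eq_mul] at h1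
  unfold avg
  rw [e1, show y + t - (x + t) = y - x by ring, div_add' _ _ _ hd.ne',
    div_le_div_iff_of_pos_right hd]
  linarith

/-- `avg f x y ≤ avg f x' (y + (x' - x)) + L |x - x'|` by translation. -/
theorem GR_lip (h : Nice f L R) : LipschitzWith L (GR f) := by
  obtain ⟨B, hB⟩ := h.bdd
  refine LipschitzWith.of_le_add_mul L fun x x' => ?_
  refine GR_le fun y hy => ?_
  have h1 := grlip_shift h.lip hy (x' - x)
  rw [show x + (x' - x) = x' by ring] at h1
  have h2 : avg f x' (y + (x' - x)) ≤ GR f x' :=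
    avg_le_GR h.lip.continuous hB (by linarith)
  rw [Real.dist_eq, abs_sub_comm]
  linarith

theorem GR_zero (h : Nice f L R) {x : ℝ} (hx : |R| ≤ x) : GR f x = 0 := by
  have k : ∀ y, x < y → avg f x y = 0 := fun y hy => by
    rw [avg, intervalIntegral.integral_congr (g := fun _ => 0) fun s hs => ?_]
    · simp
    · rw [uIcc_of_le hy.le] at hs
      exact h.zero s ((le_abs_self R).trans (hx.trans (hs.1.trans (le_abs_self s))))
  obtain ⟨B, hB⟩ := h.bdd
  exact le_antisymm (GR_le fun y hy => (k y hy).le)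
    ((k _ (lt_add_one x)).ge.trans (avg_le_GR h.lip.continuous hB (lt_add_one x)))

end Pool.Agent.Lib.MP_25e49d_an.Sob
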