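import Pool.Agent.Lib.MP_25e49d_an.Sob.Rv

/-! Approximation by Lipschitz functions with compact support. -/

set_option autoImplicit false

open MeasureTheory Set Filter Topology
open scoped ENNReal NNReal

namespace Pool.Agent.Lib.MP_25e49d_an.Sob

variable {p : ℝ} {f : ℝ → ℝ}

theorem app1_shift {φ : ℝ → ℝ≥0∞} (hφ : Measurable φ) (c δ : ℝ) :
    ∫⁻ x in Ioc c (c + δ), φ x = ∫⁻ s in Ioc 0 δ, φ (c + s) := by
  have h := (measurePreserving_add_left (volume : Measure ℝ) c).setLIntegral_comp_preimage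
    (s := Ioc c (c + δ)) measurableSet_Ioc hφ
  have e : (fun x => c + x) ⁻¹' Ioc c (c + δ) = Ioc 0 δ := by
    ext x
    simp only [mem_preimage, mem_Ioc]
    constructor
    · rintro ⟨h1, h2⟩
      exact ⟨by linarith, by linarith⟩
    · rintro ⟨h1, h2⟩
      exact ⟨by linarith, by linarith⟩
  rw [e] at h
  exact h.symm

theorem app1_cut {φ : ℝ → ℝ≥0∞} (hφ : Measurable φ) {δ : ℝ} (hδ : 0 < δ) (a : ℝ) (n : ℕ) :
    ∫⁻ x in Ioc a (a + n * δ), φ x =
      ∫⁻ s in Ioc 0 δ, ∑ k ∈ Finset.range n, φ (a + k * δ + s) := by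
  induction n with
  | zero => simp
  | succ n ih =>
    have h0 : (0 : ℝ) ≤ n * δ := by positivity
    have e : a + ((n + 1 : ℕ) : ℝ) * δ = a + n * δ + δ := by
      push_cast
      ring
    have hm : Measurable fun s => ∑ k ∈ Finset.range n, φ (a + k * δ + s) :=
      Finset.measurable_sum _ fun k _ => hφ.comp (measurable_const_add _)
    rw [e, ← Ioc_union_Ioc_eq_Ioc (b := a + n * δ) (by linarith) (by linarith),
      lintegral_union measurableSet_Ioc (Ioc_disjoint_Ioc_of_le le_rfl), ih,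
      app1_shift hφ, ← lintegral_add_left hm]
    simp only [Finset.sum_range_succ]

theorem app1_point (f : ℝ → ℝ) {δ : ℝ} (hδ : 0 < δ) (a s : ℝ) (n : ℕ) :
    ∑ k ∈ Finset.range n,
      ENNReal.ofReal (|(f (a + k * δ + s + δ) - f (a + k * δ + s)) / δ| ^ p) ≤
      ENNReal.ofReal δ⁻¹ * rieszVar p f := by
  have hx : Monotone fun k : ℕ => a + k * δ + s := by
    intro i j hij
    have : (i : ℝ) * δ ≤ j * δ := mul_le_mul_of_nonneg_right (by exact_mod_cast hij) hδ.le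
    simp only
    linarith
  refine le_trans (le_of_eq ?_) (mul_le_mul_right (sum_le_rv p f n hx) _)
  rw [← ENNReal.ofReal_mul (by positivity), Finset.mul_sum,
    ← ENNReal.ofReal_sum_of_nonneg (fun k _ => by positivity)]
  congr 1
  refine Finset.sum_congr rfl fun k _ => ?_
  have e1 : a + ((k + 1 : ℕ) : ℝ) * δ + s = a + k * δ + s + δ := by
    push_cast
    ring
  have e2 : a + k * δ + s + δ - (a + k * δ + s) = δ := by ring
  have h1 : 0 < δ ^ (p - 1) := Real.rpow_pos_of_pos hδ _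
  have e3 : δ ^ p = δ * δ ^ (p - 1) := by
    rw [Real.rpow_sub_one hδ.ne']
    field_simp
  rw [e1, e2, abs_div, abs_of_pos hδ, Real.div_rpow (abs_nonneg _) hδ.le, e3]
  field_simp

/-- Cut into `n` pieces of length `δ`, translate each to `Ioc 0 δ`; for each `s` the sum over `k`
of `|(f (a + s + (k + 1) δ) - f (a + s + k δ)) / δ| ^ p` is `δ⁻¹` times a partition sum. -/
theorem steklov (hp : 1 < p) (hf : Continuous f) {δ : ℝ} (hδ : 0 < δ) (a : ℝ) (n : ℕ) :
    ∫⁻ x in Ioc a (a + n * δ), ENNReal.ofReal (|(f (x + δ) - f x) / δ| ^ p) ≤ rieszVar p f := by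
  have hp0 : 0 ≤ p := by linarith
  have hc : Continuous fun x => |(f (x + δ) - f x) / δ| ^ p :=
    (((hf.comp (continuous_add_const δ)).sub hf).div_const δ).abs.rpow_const fun _ => Or.inr hp0
  have hφ : Measurable fun x => ENNReal.ofReal (|(f (x + δ) - f x) / δ| ^ p) :=
    ENNReal.measurable_ofReal.comp hc.measurable
  rw [app1_cut hφ hδ]
  refine le_trans (lintegral_mono fun s => app1_point f hδ a s n) (le_of_eq ?_)
  rw [setLIntegral_const, Real.volume_Ioc, sub_zero, mul_right_comm,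
    ← ENNReal.ofReal_mul (by positivity), inv_mul_cancel₀ hδ.ne', ENNReal.ofReal_one, one_mul]

theorem app2_bump : ∃ (χ : ℝ → ℝ) (K : ℝ), 0 ≤ K ∧ Differentiable ℝ χ ∧ (∀ x, |χ x| ≤ 1) ∧
    (∀ x, |x| ≤ 1 → χ x = 1) ∧ (∀ x, 2 ≤ |x| → χ x = 0 ∧ deriv χ x = 0) ∧
    ∀ x, |deriv χ x| ≤ K := by
  let b : ContDiffBump (0 : ℝ) := ⟨1, 2, one_pos, one_lt_two⟩
  have h1 : ContDiff ℝ 1 b := b.contDiff
  obtain ⟨K, hK⟩ := b.hasCompactSupport.deriv.exists_bound_of_continuous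
    (h1.continuous_deriv le_rfl)
  refine ⟨b, K, (norm_nonneg _).trans (hK 0), h1.differentiable one_ne_zero, fun x => ?_,
    fun x hx => b.one_of_mem_closedBall (by simpa using hx), fun x hx => ?_, hK⟩
  · rw [abs_of_nonneg b.nonneg]
    exact b.le_one
  · have h2 : b x = 0 := b.zero_of_le_dist (by simpa using hx)
    refine ⟨h2, IsLocalMin.deriv_eq_zero (Eventually.of_forall fun y => ?_)⟩
    rw [h2]
    exact b.nonneg

theorem app2_conv (hp : 0 < p) {η : ℝ} (hη : 0 < η) : ∃ C : ℝ, 0 ≤ C ∧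
    ∀ s t : ℝ, 0 ≤ s → 0 ≤ t → (s + t) ^ p ≤ (1 + η) * s ^ p + C * t ^ p := by
  obtain ⟨l, hl, hl2⟩ : ∃ l : ℝ, 1 < l ∧ l ^ p = 1 + η :=
    ⟨(1 + η) ^ p⁻¹, Real.one_lt_rpow (by linarith) (inv_pos.2 hp),
      Real.rpow_inv_rpow (by linarith) hp.ne'⟩
  have h0 : 0 < l - 1 := by linarith
  have h1 : 0 ≤ 1 + (l - 1)⁻¹ := by positivity
  refine ⟨(1 + (l - 1)⁻¹) ^ p, Real.rpow_nonneg h1 _, fun s t hs ht => ?_⟩
  have h2 : 0 ≤ (1 + η) * s ^ p := by positivity
  have h3 : 0 ≤ (1 + (l - 1)⁻¹) ^ p * t ^ p := by positivity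
  rcases le_total t ((l - 1) * s) with h | h
  · have h4 : (s + t) ^ p ≤ (l * s) ^ p := Real.rpow_le_rpow (by positivity) (by linarith) hp.le
    rw [Real.mul_rpow (by linarith) hs, hl2] at h4
    linarith
  · have h5 : s ≤ (l - 1)⁻¹ * t := by rwa [le_inv_mul_iff₀ h0]
    have h4 : (s + t) ^ p ≤ ((1 + (l - 1)⁻¹) * t) ^ p :=
      Real.rpow_le_rpow (by positivity) (by linarith) hp.le
    rw [Real.mul_rpow h1 ht] at h4
    linarith

theorem app2_S (hp : 1 < p) (C D T : ℝ) (hD : 0 ≤ D) {ε : ℝ} (hε : 0 < ε) :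
    ∃ S : ℝ, 0 < S ∧ T ≤ S ∧ C * (D / S) ^ p * (4 * S) ≤ ε := by
  have h1 := (tendsto_rpow_neg_atTop (y := p - 1) (by linarith)).const_mul (4 * C * D ^ p)
  rw [mul_zero] at h1
  obtain ⟨S, h2, h3, h4⟩ := ((eventually_gt_atTop 0).and ((eventually_ge_atTop T).and
    (h1.eventually (ge_mem_nhds hε)))).exists
  refine ⟨S, h2, h3, le_of_eq_of_le ?_ h4⟩
  rw [Real.div_rpow hD h2.le, neg_sub, Real.rpow_sub h2, Real.rpow_one]
  ring

theorem app2_mean (hf : Continuous f) {δ : ℝ} (hδ : 0 < δ) : ∃ u : ℝ → ℝ,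
    (∀ x, HasDerivAt u ((f (x + δ) - f x) / δ) x) ∧ ∀ x, ∃ c ∈ Ioo x (x + δ), u x = f c := by
  have hF : ∀ x, HasDerivAt (fun y => ∫ s in (0 : ℝ)..y, f s) (f x) x := fun x =>
    (hf.integral_hasStrictDerivAt 0 x).hasDerivAt
  refine ⟨fun x => ((∫ s in (0 : ℝ)..(x + δ), f s) - ∫ s in (0 : ℝ)..x, f s) / δ,
    fun x => (((hF (x + δ)).comp_add_const x δ).sub (hF x)).div_const δ, fun x => ?_⟩
  obtain ⟨c, hc, h⟩ := exists_hasDerivAt_eq_slope _ f (show x < x + δ by linarith)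
    (fun y _ => (hF y).continuousAt.continuousWithinAt) fun y _ => hF y
  rw [add_sub_cancel_left] at h
  exact ⟨c, hc, h.symm⟩

/-- `g = χ u`, `χ x = min 1 (max 0 (2 - |x| / S))` (`1 / S`-Lipschitz, zero for `2 S ≤ |x|`),
`u x = δ⁻¹ ∫ s in x..x + δ, f s` (derivative `(f (x + δ) - f x) / δ`, bounded). A.e.
`|g'| ≤ |u'| + B / S` on `[-2 S, 2 S]` and `g' = 0` outside;
`(s + t) ^ p ≤ θ ^ (1 - p) s ^ p + (1 - θ) ^ (1 - p) t ^ p` (convexity); choose `θ` near `1`, then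
`S ≥ T` large (`4 S (B / S) ^ p → 0`), then `δ` by uniform continuity on `[-2 S, 2 S + 1]`;
`steklov` with `a = -2 S`. -/
theorem approx (hp : 1 < p) (hf : Continuous f) {B : ℝ} (hB : ∀ x, |f x| ≤ B)
    (hV : rieszVar p f ≠ ⊤) {ε : ℝ} (hε : 0 < ε) (T : ℝ) :
    ∃ (g : ℝ → ℝ) (L : ℝ≥0) (R : ℝ), LipschitzWith L g ∧ (∀ x, R ≤ |x| → g x = 0) ∧
      (∀ x, |g x| ≤ |f x| + ε) ∧ (∀ x, |x| ≤ T → |g x - f x| ≤ ε) ∧
      En p g ≤ rieszVar p f + ENNReal.ofReal ε := by
  obtain ⟨V, hV0, hV1⟩ : ∃ V : ℝ, 0 ≤ V ∧ rieszVar p f = ENNReal.ofReal V :=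
    ⟨_, ENNReal.toReal_nonneg, (ENNReal.ofReal_toReal hV).symm⟩
  have hB0 : 0 ≤ B := (abs_nonneg _).trans (hB 0)
  obtain ⟨χ, K, hK, c1, c2, c3, c4, c5⟩ := app2_bump
  have hη : 0 < ε / 2 / (V + 1) := by positivity
  obtain ⟨C, hC, hc⟩ := app2_conv (by linarith : 0 < p) hη
  obtain ⟨S, hS, hT, hS2⟩ := app2_S hp C (K * B) T (by positivity) (half_pos hε)
  obtain ⟨d, hd, hu⟩ := Metric.uniformContinuousOn_iff.1
    ((isCompact_Icc (a := -(2 * S)) (b := 2 * S + 1)).uniformContinuousOn_of_continuous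
      hf.continuousOn) ε hε
  have hm : 0 < min d 1 := lt_min hd one_pos
  obtain ⟨n, hn⟩ := exists_nat_gt (4 * S / min d 1)
  have hn0 : (0 : ℝ) < n := lt_trans (by positivity) hn
  obtain ⟨δ, hδ, hδ1, hδ2⟩ : ∃ δ : ℝ, 0 < δ ∧ δ < min d 1 ∧ -(2 * S) + n * δ = 2 * S := by
    refine ⟨4 * S / n, by positivity, ?_, by field_simp; ring⟩
    rw [div_lt_iff₀ hm] at hn
    rwa [div_lt_iff₀ hn0, mul_comm (min d 1)]
  obtain ⟨u, u1, u2⟩ := app2_mean hf hδ
  have u3 : ∀ x, |u x| ≤ B := fun x => by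
    obtain ⟨c, -, h⟩ := u2 x
    rw [h]
    exact hB c
  have u4 : ∀ x, |x| ≤ 2 * S → |u x - f x| ≤ ε := fun x hx => by
    obtain ⟨c, ⟨h1, h2⟩, h⟩ := u2 x
    obtain ⟨h3, h4⟩ := abs_le.1 hx
    obtain ⟨h5, h6⟩ := lt_min_iff.1 hδ1
    rw [h]
    refine (hu c ⟨by linarith, by linarith⟩ x ⟨h3, by linarith⟩ ?_).le
    rw [Real.dist_eq, abs_of_pos (by linarith)]
    linarith
  have g1 : ∀ x, HasDerivAt (fun y => χ (y / S) * u y)
      (deriv χ (x / S) * (1 / S) * u x + χ (x / S) * ((f (x + δ) - f x) / δ)) x := fun x =>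
    ((c1 (x / S)).hasDerivAt.comp x ((hasDerivAt_id x).div_const S)).mul (u1 x)
  have g2 : ∀ x, |deriv (fun y => χ (y / S) * u y) x| ≤
      |(f (x + δ) - f x) / δ| + K * B / S := fun x => by
    rw [(g1 x).deriv, add_comm]
    refine (abs_add_le _ _).trans (add_le_add ?_ ?_)
    · rw [abs_mul]
      exact mul_le_of_le_one_left (abs_nonneg _) (c2 _)
    · rw [mul_right_comm, mul_one_div, abs_div, abs_mul, abs_of_pos hS]
      exact div_le_div_of_nonneg_right (mul_le_mul (c5 _) (u3 x) (abs_nonneg _) hK) hS.le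
  have g3 : ∀ x, 2 * S ≤ |x| → 2 ≤ |x / S| := fun x hx => by
    rwa [abs_div, abs_of_pos hS, le_div_iff₀ hS]
  refine ⟨fun y => χ (y / S) * u y, ⟨2 * B / δ + K * B / S, by positivity⟩, 2 * S, ?_,
    fun x hx => ?_, fun x => ?_, fun x hx => ?_, ?_⟩
  · refine lipschitzWith_of_nnnorm_deriv_le (fun x => (g1 x).differentiableAt) fun x => ?_
    refine NNReal.coe_le_coe.1 ((g2 x).trans (add_le_add_left ?_ _))
    rw [abs_div, abs_of_pos hδ]
    refine div_le_div_of_nonneg_right ((abs_sub _ _).trans ?_) hδ.le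
    linarith [hB (x + δ), hB x]
  · beta_reduce
    rw [(c4 _ (g3 x hx)).1, zero_mul]
  · beta_reduce
    rcases le_total |x| (2 * S) with hx | hx
    · have h1 := u4 x hx
      have h2 := abs_sub_abs_le_abs_sub (u x) (f x)
      have h3 := mul_le_of_le_one_left (abs_nonneg (u x)) (c2 (x / S))
      rw [abs_mul]
      linarith
    · rw [(c4 _ (g3 x hx)).1, zero_mul, abs_zero]
      positivity
  · beta_reduce
    rw [c3 (x / S) (by rw [abs_div, abs_of_pos hS, div_le_one hS]; linarith), one_mul]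
    exact u4 x (by linarith)
  · have h1 := steklov hp hf hδ (-(2 * S)) n
    rw [hδ2, hV1] at h1
    have h2 : ∀ x, ENNReal.ofReal (|deriv (fun y => χ (y / S) * u y) x| ^ p) ≤
        (Ioc (-(2 * S)) (2 * S)).indicator (fun x => ENNReal.ofReal (1 + ε / 2 / (V + 1)) *
          ENNReal.ofReal (|(f (x + δ) - f x) / δ| ^ p) +
            ENNReal.ofReal (C * (K * B / S) ^ p)) x := by
      intro x
      by_cases hx : x ∈ Ioc (-(2 * S)) (2 * S)
      · rw [indicator_of_mem hx, ← ENNReal.ofReal_mul (by positivity),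
          ← ENNReal.ofReal_add (by positivity) (by positivity)]
        exact ENNReal.ofReal_le_ofReal ((Real.rpow_le_rpow (abs_nonneg _) (g2 x)
          (by linarith)).trans (hc _ _ (abs_nonneg _) (by positivity)))
      · have h3 : 2 * S ≤ |x| := by
          rw [mem_Ioc, not_and_or, not_lt, not_le] at hx
          rcases hx with hx | hx
          · linarith [neg_le_abs x]
          · linarith [le_abs_self x]
        rw [(g1 x).deriv, (c4 _ (g3 x h3)).1, (c4 _ (g3 x h3)).2]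
        simp [Real.zero_rpow (show p ≠ 0 by linarith)]
    refine (lintegral_mono h2).trans ?_
    rw [lintegral_indicator measurableSet_Ioc, lintegral_add_right _ measurable_const,
      lintegral_const_mul' _ _ ENNReal.ofReal_ne_top, setLIntegral_const, Real.volume_Ioc, hV1]
    have h5 : 2 * S - -(2 * S) = 4 * S := by ring
    rw [h5]
    refine (add_le_add_left (mul_le_mul_right h1 _) _).trans ?_
    rw [← ENNReal.ofReal_mul (by positivity), ← ENNReal.ofReal_mul (by positivity),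
      ← ENNReal.ofReal_add (by positivity) (by positivity), ← ENNReal.ofReal_add hV0 hε.le]
    refine ENNReal.ofReal_le_ofReal ?_
    have h4 : ε / 2 / (V + 1) * V ≤ ε / 2 := by
      rw [div_mul_eq_mul_div, div_le_iff₀ (by positivity)]
      nlinarith
    linarith

end Pool.Agent.Lib.MP_25e49d_an.Sob
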