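import Pool.Agent.Lib.MP_25e49d_an.Sob.A

/-! The largest optimal end point. -/

set_option autoImplicit false

open MeasureTheory Set Filter Topology
open scoped ENNReal NNReal

namespace Pool.Agent.Lib.MP_25e49d_an.Sob

theorem b_ex {f : ℝ → ℝ} {L : ℝ≥0} {R : ℝ} (h : Nice f L R) {x : ℝ} (hx : f x < GR f x) :
    ∃ y, IsGreatest {z | x < z ∧ avg f x z = GR f x} y := by
  have hf := h.lip.continuous
  obtain ⟨B, hB⟩ := h.bdd
  obtain ⟨w, w1, w2⟩ := exists_between hx
  have w0 : 0 < w := (h.nonneg x).trans_lt w1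
  obtain ⟨u, hu, hu'⟩ := mem_nhdsGT_iff_exists_Ioo_subset.1
    ((tendsto_avg hf x).eventually_lt_const w1)
  obtain ⟨b, b1, b2⟩ : ∃ b, x < b ∧ |R| ≤ b :=
    ⟨max (x + 1) |R|, (lt_add_one x).trans_le (le_max_left _ _), le_max_right _ _⟩
  obtain ⟨T, T1, T2, T3⟩ : ∃ T, u ≤ T ∧ b ≤ T ∧ x + GR f x * (b - x) / w ≤ T :=
    ⟨max u (max b _), le_max_left _ _, (le_max_left _ _).trans (le_max_right _ _),
      (le_max_right _ _).trans (le_max_right _ _)⟩
  have out : ∀ z, x < z → z ∉ Icc u T → avg f x z < w := fun z hz hn => by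
    rcases lt_or_ge z u with h1 | h1
    · exact hu' ⟨hz, h1⟩
    have h2 : T < z := not_le.1 fun h2 => hn ⟨h1, h2⟩
    have h3 := avg_split hf b1 (T2.trans_lt h2)
    have h4 := avg_le_GR hf hB b1
    have h5 := (avg_le_GR hf hB (T2.trans_lt h2)).trans_eq (GR_zero h b2)
    have h6 : GR f x * (b - x) < w * (z - x) := by
      rw [mul_comm w, ← div_lt_iff₀ w0]
      linarith
    refine lt_of_mul_lt_mul_right ?_ (sub_pos.2 hz).le
    nlinarith [mul_le_mul_of_nonneg_right h4 (sub_pos.2 b1).le,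
      mul_nonpos_of_nonpos_of_nonneg h5 (sub_pos.2 (T2.trans_lt h2)).le]
  have hc : ContinuousOn (avg f x) (Icc u T) :=
    (intervalIntegral.continuous_primitive (fun a b => hf.intervalIntegrable a b)
      x).continuousOn.div (continuous_id.sub continuous_const).continuousOn
        fun z hz => (sub_pos.2 (lt_of_lt_of_le hu hz.1)).ne'
  obtain ⟨z, hz, hm⟩ := isCompact_Icc.exists_isMaxOn (nonempty_Icc.2 T1) hc
  have hz' : avg f x z = GR f x := by
    refine le_antisymm (avg_le_GR hf hB (lt_of_lt_of_le hu hz.1)) ?_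
    have h1 : GR f x ≤ max w (avg f x z) := GR_le fun t ht => by
      by_cases h2 : t ∈ Icc u T
      · exact le_max_of_le_right (hm h2)
      · exact le_max_of_le_left (out t ht h2).le
    exact (le_max_iff.1 h1).resolve_left w2.not_ge
  have hS : {z | x < z ∧ avg f x z = GR f x} = Icc u T ∩ avg f x ⁻¹' {GR f x} := by
    ext t
    refine ⟨fun ht => ⟨?_, ht.2⟩, fun ht => ⟨lt_of_lt_of_le hu ht.1.1, ht.2⟩⟩
    by_contra hn
    exact (out t ht.1 hn).not_gt (ht.2 ▸ w2)
  rw [hS]
  exact (isCompact_Icc.of_isClosed_subset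
    (hc.preimage_isClosed_of_isClosed isClosed_Icc isClosed_singleton)
    inter_subset_left).exists_isGreatest ⟨z, hz, hz'⟩

/-- For `f x < GR f x =: v` the function `H z = ∫ s in x..z, (f s - v)` is continuous, `≤ 0` on
`z > x`, negative just right of `x` and for large `z`; the set `{z > x | H z = 0}` is nonempty
(`avg f x` tends to `f x < v` at `x` and to `0 < v` at infinity, so the supremum is attained) and
compact; `y x` is its largest point. `val`: `H` has a local maximum at `y x`. `con`, `ge`, `anti`: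
`avg_split`. -/
theorem exists_opt {f : ℝ → ℝ} {L : ℝ≥0} {R : ℝ} (h : Nice f L R) : ∃ y, Opt f y := by
  have hf := h.lip.continuous
  obtain ⟨B, hB⟩ := h.bdd
  have h0 : ∀ x, ∃ y, f x < GR f x → IsGreatest {z | x < z ∧ avg f x z = GR f x} y := fun x => by
    by_cases hx : f x < GR f x
    · exact (b_ex h hx).imp fun _ hy _ => hy
    · exact ⟨0, fun h' => (hx h').elim⟩
  choose y hy using h0
  have lt : ∀ x, f x < GR f x → x < y x := fun x hx => (hy x hx).1.1
  have eq : ∀ x, f x < GR f x → avg f x (y x) = GR f x := fun x hx => (hy x hx).1.2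
  have aft : ∀ x z, f x < GR f x → y x < z → avg f (y x) z < GR f x := fun x z hx hz => by
    have h1 := avg_split hf (lt x hx) hz
    have h2 : avg f x z < GR f x := (avg_le_GR hf hB ((lt x hx).trans hz)).lt_of_ne fun e =>
      hz.not_ge ((hy x hx).2 ⟨(lt x hx).trans hz, e⟩)
    rw [eq x hx] at h1
    refine lt_of_mul_lt_mul_right ?_ (sub_pos.2 hz).le
    nlinarith [mul_lt_mul_of_pos_right h2 (sub_pos.2 ((lt x hx).trans hz))]
  have ge : ∀ x z, f x < GR f x → x ≤ z → z < y x → GR f x ≤ GR f z := fun x z hx h1 h2 => by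
    rcases h1.eq_or_lt with rfl | h1
    · exact le_rfl
    have h3 := avg_split hf h1 h2
    rw [eq x hx] at h3
    refine le_trans (le_of_mul_le_mul_right ?_ (sub_pos.2 h2)) (avg_le_GR hf hB h2)
    nlinarith [mul_le_mul_of_nonneg_right (avg_le_GR hf hB h1) (sub_pos.2 h1).le]
  have top : ∀ x, f x < GR f x → GR f (y x) = GR f x := fun x hx => by
    refine le_antisymm (GR_le fun z hz => (aft x z hx hz).le) ?_
    have h1 : closure (Ioo x (y x)) ⊆ {z | GR f x ≤ GR f z} :=
      closure_minimal (fun z hz => ge x z hx hz.1.le hz.2)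
        (isClosed_le continuous_const (GR_lip h).continuous)
    rw [closure_Ioo (lt x hx).ne] at h1
    exact h1 (right_mem_Icc.2 (lt x hx).le)
  have con : ∀ x, f x < GR f x → GR f (y x) = f (y x) := fun x hx => by
    refine le_antisymm (not_lt.1 fun h1 => ?_) (le_GR hf hB _)
    exact (aft x _ hx (lt _ h1)).ne ((eq _ h1).trans (top x hx))
  refine ⟨y, lt, eq, fun x hx => (con x hx).symm.trans (top x hx), con, ge,
    fun x z hx hz h1 h2 => not_lt.1 fun h3 => ?_⟩
  have h4 := avg_split hf h2 h3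
  rw [eq z hz] at h4
  nlinarith [mul_le_mul_of_nonneg_right (avg_le_GR hf hB h2) (sub_pos.2 h2).le,
    mul_lt_mul_of_pos_right ((aft x _ hx h3).trans_le (ge x z hx h1 h2)) (sub_pos.2 h3)]

end Pool.Agent.Lib.MP_25e49d_an.Sob
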