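import Pool.Agent.Lib.MP_25e49d_an.Sob.Defs

/-! Averages, the one-sided maximal function and the data of the proof. -/

set_option autoImplicit false

open MeasureTheory Set Filter Topology
open scoped ENNReal NNReal

namespace Pool.Agent.Lib.MP_25e49d_an.Sob

/-- The average over `[a, b]`. -/
noncomputable def avg (f : ℝ → ℝ) (a b : ℝ) : ℝ := (∫ s in a..b, f s) / (b - a)

/-- The right maximal function. -/
noncomputable def GR (f : ℝ → ℝ) (x : ℝ) : ℝ := sSup (avg f x '' Ioi x)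

/-- The uncentred maximal function. -/
noncomputable def Mx (f : ℝ → ℝ) (x : ℝ) : ℝ :=
  sSup {v : ℝ | ∃ y t : ℝ, 0 < t ∧ |x - y| ≤ t ∧ v = (2 * t)⁻¹ * ∫ s in (y - t)..(y + t), |f s|}

/-- Lipschitz, nonnegative, compactly supported. -/
structure Nice (f : ℝ → ℝ) (L : ℝ≥0) (R : ℝ) : Prop where
  lip : LipschitzWith L f
  nonneg : ∀ x, 0 ≤ f x
  zero : ∀ x, R ≤ |x| → f x = 0

/-- `y x` is the largest optimal right end point. -/
structure Opt (f y : ℝ → ℝ) : Prop where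
  lt : ∀ x, f x < GR f x → x < y x
  eq : ∀ x, f x < GR f x → avg f x (y x) = GR f x
  val : ∀ x, f x < GR f x → f (y x) = GR f x
  con : ∀ x, f x < GR f x → GR f (y x) = f (y x)
  ge : ∀ x z, f x < GR f x → x ≤ z → z < y x → GR f x ≤ GR f z
  anti : ∀ x z, f x < GR f x → f z < GR f z → x ≤ z → z < y x → y z ≤ y x

/-- The constants of the extremal. -/
structure Par (p c τ : ℝ) : Prop where
  hp : 1 < p
  c0 : 0 < c
  t0 : 0 < τ
  e1 : c ^ p = τ ^ (p - 1)
  e2 : 1 / c = 1 + (p - 1) / p + (p - 1) / p * τ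

/-- The potential. -/
noncomputable def WW (p : ℝ) (f y : ℝ → ℝ) (x : ℝ) : ℝ :=
  if f x < GR f x then (GR f x - f x) ^ p * (y x - x) ^ (1 - p) / p else 0

/-- The energy of the positive part of the derivative. -/
noncomputable def Ep (p : ℝ) (g : ℝ → ℝ) : ℝ≥0∞ := ∫⁻ x, ENNReal.ofReal (max (deriv g x) 0 ^ p)

/-- The energy of the negative part of the derivative. -/
noncomputable def Em (p : ℝ) (g : ℝ → ℝ) : ℝ≥0∞ := ∫⁻ x, ENNReal.ofReal (max (-deriv g x) 0 ^ p)

/-- The energy. -/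
noncomputable def En (p : ℝ) (g : ℝ → ℝ) : ℝ≥0∞ := ∫⁻ x, ENNReal.ofReal (|deriv g x| ^ p)

/-- The test functions. -/
noncomputable def fx (γ x : ℝ) : ℝ := max (1 - |x| ^ γ) 0

end Pool.Agent.Lib.MP_25e49d_an.Sob
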