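import Pool.Agent.Lib.MP_25e49d_an.Sob.A

/-! The derivative of the right maximal function. -/

set_option autoImplicit false

open MeasureTheory Set Filter Topology
open scoped ENNReal NNReal

namespace Pool.Agent.Lib.MP_25e49d_an.Sob

variable {f y : ℝ → ℝ} {L : ℝ≥0} {R : ℝ}

theorem Nice.near (hn : Nice f L R) {x : ℝ} (hx : f x < GR f x) : ∀ᶠ z in 𝓝 x, f z < GR f z := by
  exact hn.lip.continuous.continuousAt.eventually_lt (GR_lip hn).continuous.continuousAt hx

/-- `z ↦ GR f z - avg f z (y x)` has a local minimum at `x`. -/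
theorem Opt.deriv (hn : Nice f L R) (h : Opt f y) {x a : ℝ} (hx : f x < GR f x)
    (ha : HasDerivAt (GR f) a x) : a = (GR f x - f x) / (y x - x) := by
  have hc := hn.lip.continuous
  obtain ⟨B, hB⟩ := hn.bdd
  have h1 := h.lt x hx
  have h0 : y x - x ≠ 0 := sub_ne_zero.2 h1.ne'
  have h2 : HasDerivAt (fun u => ∫ s in u..(y x), f s) (-f x) x :=
    intervalIntegral.integral_hasDerivAt_left (hc.intervalIntegrable _ _)
      (hc.stronglyMeasurableAtFilter _ _) hc.continuousAt
  have h3 : HasDerivAt (fun u => y x - u) (-1) x := (hasDerivAt_id x).const_sub (y x)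
  have h4 := ha.fun_sub (h2.fun_div h3 h0)
  have h5 := h.eq x hx
  have h6 : IsLocalMin (fun u => GR f u - (∫ s in u..(y x), f s) / (y x - u)) x := by
    filter_upwards [Iio_mem_nhds h1] with z hz
    have h7 := avg_le_GR hc hB (show z < y x from hz)
    simp only [avg] at h5 h7
    linarith
  have h8 := h6.hasDerivAt_eq_zero h4
  simp only [avg] at h5
  rw [div_eq_iff h0] at h5
  rw [h5, sub_eq_zero] at h8
  rw [h8]
  field_simp
  ring

/-- `GR f x = f (y x)` and `f` is Lipschitz. -/
theorem Opt.slope_le (hn : Nice f L R) (h : Opt f y) {x : ℝ} (hx : f x < GR f x) :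
    GR f x - f x ≤ L * (y x - x) := by
  have h1 := hn.lip.dist_le_mul (y x) x
  rw [Real.dist_eq, Real.dist_eq, abs_of_pos (sub_pos.2 (h.lt x hx)), h.val x hx] at h1
  exact (le_abs_self _).trans h1

/-- If `x₁ < x₂` have the same `y` then `GR f z ≥ GR f x₁ = GR f x₂` on `[x₁, x₂]` (`ge`, `val`),
so the left derivative at `x₂` is not positive, against `Opt.deriv`. -/
theorem Opt.inj (hn : Nice f L R) (h : Opt f y) :
    InjOn y {x | f x < GR f x ∧ DifferentiableAt ℝ (GR f) x} := by
  have key : ∀ x₁ x₂ : ℝ, f x₁ < GR f x₁ → f x₂ < GR f x₂ → DifferentiableAt ℝ (GR f) x₂ →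
      x₁ < x₂ → y x₁ = y x₂ → False := by
    intro x₁ x₂ h1 h2 hd hlt hy
    have hG : GR f x₁ = GR f x₂ := by rw [← h.val x₁ h1, ← h.val x₂ h2, hy]
    have ha := hd.hasDerivAt
    have hpos : 0 < _root_.deriv (GR f) x₂ := by
      rw [Opt.deriv hn h h2 ha]
      exact div_pos (sub_pos.2 h2) (sub_pos.2 (h.lt x₂ h2))
    have ht := (hasDerivAt_iff_tendsto_slope_left_right.1 ha).1
    have hev : ∀ᶠ z in 𝓝[<] x₂, slope (GR f) x₂ z ≤ 0 := by
      filter_upwards [Ioo_mem_nhdsLT hlt] with z hz
      rw [slope_def_field]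
      have h3 : GR f x₁ ≤ GR f z :=
        h.ge x₁ z h1 hz.1.le (by rw [hy]; exact hz.2.trans (h.lt x₂ h2))
      exact div_nonpos_of_nonneg_of_nonpos (by linarith) (by linarith [hz.2])
    exact absurd (le_of_tendsto ht hev) (not_le.2 hpos)
  intro x₁ h1 x₂ h2 hy
  rcases lt_trichotomy x₁ x₂ with hlt | heq | hgt
  · exact (key x₁ x₂ h1.1 h2.1 h2.2 hlt hy).elim
  · exact heq
  · exact (key x₂ x₁ h2.1 h1.1 h1.2 hgt hy.symm).elim

/-- At a contact point `GR f - f` has a minimum, so `a = d`; if `d > 0` then `f > f x` just right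
of `x` and a short average exceeds `f x`. -/
theorem contact_le (hn : Nice f L R) {x a d : ℝ} (hx : ¬ f x < GR f x) (hf : HasDerivAt f d x)
    (ha : HasDerivAt (GR f) a x) : a ≤ 0 := by
  obtain ⟨B, hB⟩ := hn.bdd
  have hc : Continuous f := hn.lip.continuous
  have hx0 : GR f x ≤ f x := not_lt.1 hx
  have hmin : IsLocalMin (fun z => GR f z - f z) x :=
    Eventually.of_forall fun z => by
      have := le_GR hc hB z
      show GR f x - f x ≤ GR f z - f z
      linarith
  have had : a - d = 0 := hmin.hasDerivAt_eq_zero (ha.sub hf)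
  by_contra hpos
  have hd : 0 < d := by linarith [not_le.1 hpos]
  have ht := (hasDerivAt_iff_tendsto_slope_left_right.1 hf).2
  have hev : ∀ᶠ z in 𝓝[>] x, 0 < slope f x z := ht.eventually (lt_mem_nhds hd)
  obtain ⟨u, hu, hsub⟩ := mem_nhdsGT_iff_exists_Ioo_subset.1 hev
  have hxu : x < u := hu
  have hint : 0 < ∫ s in x..u, (f s - f x) := by
    refine intervalIntegral.intervalIntegral_pos_of_pos_on
      ((hc.sub continuous_const).intervalIntegrable _ _) (fun z hz => ?_) hxu
    have h1 : 0 < slope f x z := hsub hz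
    rw [slope_def_field] at h1
    exact (div_pos_iff_of_pos_right (sub_pos.2 hz.1)).1 h1
  rw [intervalIntegral.integral_sub (hc.intervalIntegrable _ _) intervalIntegrable_const,
    intervalIntegral.integral_const, smul_eq_mul] at hint
  have h2 : avg f x u ≤ GR f x := avg_le_GR hc hB hxu
  have h3 : f x < avg f x u := by
    unfold avg
    rw [lt_div_iff₀ (sub_pos.2 hxu)]
    linarith
  linarith

end Pool.Agent.Lib.MP_25e49d_an.Sob
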