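import Pool.Agent.Lib.MP_25e49d_an.Sob.C

/-! The potential is monotone up to a linear term. -/

set_option autoImplicit false

open MeasureTheory Set Filter Topology
open scoped ENNReal NNReal

namespace Pool.Agent.Lib.MP_25e49d_an.Sob

variable {f y : ℝ → ℝ} {L : ℝ≥0} {R p : ℝ}

theorem W_nonneg (hp : 1 < p) (h : Opt f y) (x : ℝ) : 0 ≤ WW p f y x := by
  unfold WW
  split_ifs with hx
  · have h1 : 0 ≤ GR f x - f x := by linarith
    have h2 : 0 ≤ y x - x := by linarith [h.lt x hx]
    have h3 : 0 ≤ p := by linarith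
    positivity
  · exact le_rfl

theorem sbD_ratio (hp : 1 < p) {a r M : ℝ} (ha : 0 < a) (hr : 0 < r) (h : a ≤ M * r) :
    a ^ (p - 1) * r ^ (1 - p) ≤ M ^ (p - 1) := by
  have h1 : a / r ≤ M := (div_le_iff₀ hr).2 h
  have h2 : (a / r) ^ (p - 1) ≤ M ^ (p - 1) :=
    Real.rpow_le_rpow (div_pos ha hr).le h1 (by linarith)
  rw [Real.div_rpow ha.le hr.le] at h2
  have h3 : r ^ (1 - p) = (r ^ (p - 1))⁻¹ := by
    rw [← Real.rpow_neg hr.le]
    congr 1
    ring
  rw [h3, ← div_eq_mul_inv]
  exact h2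

theorem sbD_split {a : ℝ} (ha : 0 < a) : a ^ p = a * a ^ (p - 1) := by
  rw [Real.rpow_sub_one ha.ne']
  field_simp

theorem sbD_bern (hp : 1 < p) {a b : ℝ} (ha : 0 < a) (hb : 0 < b) :
    a ^ p - b ^ p ≤ p * (a ^ (p - 1) * (a - b)) := by
  have hs : (-1 : ℝ) ≤ b / a - 1 := by
    have := div_pos hb ha
    linarith
  have h1 := one_add_mul_self_le_rpow_one_add hs hp.le
  have h2 : 1 + (b / a - 1) = b / a := by ring
  rw [h2, Real.div_rpow hb.le ha.le, le_div_iff₀ (Real.rpow_pos_of_pos ha p)] at h1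
  have h3 : (1 + p * (b / a - 1)) * a ^ p = a ^ p - p * (a ^ (p - 1) * (a - b)) := by
    rw [sbD_split (p := p) ha]
    field_simp
    ring
  rw [h3] at h1
  linarith

theorem sbD_lip (hn : Nice f L R) {x z : ℝ} (hxz : x ≤ z) :
    (GR f x - f x) - (GR f z - f z) ≤ 2 * L * (z - x) := by
  have h1 := (GR_lip hn).dist_le_mul x z
  have h2 := hn.lip.dist_le_mul x z
  have h3 : dist x z = z - x := by
    rw [Real.dist_eq, abs_sub_comm, abs_of_nonneg (by linarith)]
  rw [h3, Real.dist_eq] at h1 h2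
  have h4 := (abs_le.1 h1).2
  have h5 := (abs_le.1 h2).1
  linarith

/-- `K = 2 L ^ p`; `h = GR f - f ≥ 0` is `2 L`-Lipschitz, `r = y x - x`, `h ≤ L r`. Let `x ≤ z`,
`h x > 0`. If some `u ∈ [x, z]` has `h u = 0` (this holds if `y x ≤ z`, by `con`, or `h z = 0`):
`W x = h x (h x / r x) ^ (p - 1) / p ≤ 2 L (z - x) L ^ (p - 1)`. Else `r z ≤ r x` (`anti`), so
`W z ≥ h z ^ p r x ^ (1 - p) / p`, and `h z ^ p ≥ h x ^ p - p h x ^ (p - 1) (h x - h z)`
(Bernoulli). -/
theorem W_mono (hp : 1 < p) (hn : Nice f L R) (h : Opt f y) :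
    ∃ K : ℝ, Monotone fun x => WW p f y x + K * x := by
  have hL : (0 : ℝ) ≤ L := L.2
  have hLp : (0 : ℝ) ≤ (L : ℝ) ^ (p - 1) := Real.rpow_nonneg hL _
  have hp0 : 0 < p := by linarith
  refine ⟨2 * L * (L : ℝ) ^ (p - 1), fun x z hxz => ?_⟩
  have hd : 0 ≤ z - x := by linarith
  have hD : 0 ≤ 2 * (L : ℝ) * (z - x) := by positivity
  have key : WW p f y x - WW p f y z ≤ (L : ℝ) ^ (p - 1) * (2 * L * (z - x)) := by
    have hz0 := W_nonneg hp h z
    by_cases hx : f x < GR f x
    · have ha : 0 < GR f x - f x := by linarith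
      have hr : 0 < y x - x := by linarith [h.lt x hx]
      have hs := h.slope_le hn hx
      have hq := sbD_ratio hp ha hr hs
      have hq0 : 0 ≤ (GR f x - f x) ^ (p - 1) * (y x - x) ^ (1 - p) := by positivity
      have hl := sbD_lip hn hxz
      have hWx : WW p f y x = (GR f x - f x) ^ p * (y x - x) ^ (1 - p) / p := by
        unfold WW
        rw [if_pos hx]
      by_cases hc : z < y x ∧ f z < GR f z
      · obtain ⟨hzy, hz⟩ := hc
        have hb : 0 < GR f z - f z := by linarith
        have hrz : 0 < y z - z := by linarith [h.lt z hz]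
        have hle : y z - z ≤ y x - x := by linarith [h.anti x z hx hz hxz hzy]
        have h1 : (y x - x) ^ (1 - p) ≤ (y z - z) ^ (1 - p) :=
          Real.rpow_le_rpow_of_nonpos hrz hle (by linarith)
        have hWz : WW p f y z = (GR f z - f z) ^ p * (y z - z) ^ (1 - p) / p := by
          unfold WW
          rw [if_pos hz]
        have h2 : (GR f z - f z) ^ p * (y x - x) ^ (1 - p) ≤
            (GR f z - f z) ^ p * (y z - z) ^ (1 - p) :=
          mul_le_mul_of_nonneg_left h1 (Real.rpow_nonneg hb.le _)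
        have h3 := mul_le_mul_of_nonneg_right (sbD_bern hp ha hb)
          (Real.rpow_nonneg hr.le (1 - p))
        have h4 := mul_le_mul_of_nonneg_left hl hq0
        have h5 := mul_le_mul_of_nonneg_right hq hD
        have h6 := mul_le_mul_of_nonneg_left (h4.trans h5) hp0.le
        rw [hWx, hWz, ← sub_div, div_le_iff₀ hp0]
        nlinarith
      · have h1 : GR f x - f x ≤ 2 * L * (z - x) := by
          by_cases hzy : z < y x
          · have hz : ¬ f z < GR f z := fun hz => hc ⟨hzy, hz⟩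
            linarith [not_lt.1 hz]
          · have h2 : y x - x ≤ z - x := by linarith [not_lt.1 hzy]
            have h3 := mul_le_mul_of_nonneg_left h2 hL
            have h4 := mul_nonneg hL hd
            linarith
        have h2 := mul_le_mul hq h1 ha.le hLp
        have h3 : WW p f y x ≤
            (GR f x - f x) ^ (p - 1) * (y x - x) ^ (1 - p) * (GR f x - f x) := by
          rw [hWx, sbD_split (p := p) ha, div_le_iff₀ hp0]
          have h4 := mul_nonneg hq0 ha.le
          have h5 := mul_le_mul_of_nonneg_left hp.le h4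
          linarith
        linarith
    · have hWx : WW p f y x = 0 := by
        unfold WW
        rw [if_neg hx]
      have := mul_nonneg hLp hD
      linarith
  show WW p f y x + 2 * L * (L : ℝ) ^ (p - 1) * x ≤ WW p f y z + 2 * L * (L : ℝ) ^ (p - 1) * z
  linarith

end Pool.Agent.Lib.MP_25e49d_an.Sob
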