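import Pool.Agent.Lib.MP_25e49d_an.Sob.C

/-! The derivative of the potential. -/

set_option autoImplicit false

open MeasureTheory Set Filter Topology
open scoped ENNReal NNReal

namespace Pool.Agent.Lib.MP_25e49d_an.Sob

variable {f y : ℝ → ℝ} {L : ℝ≥0} {R p : ℝ}

/-- Near `x` (`Nice.near`): `y z = z + (h z ^ p / (p * W z)) ^ (1 / (p - 1))`, so `y` is
differentiable at `x`; call the derivative `-w`. Product rule for `W = h ^ p r ^ (1 - p) / p` with
`a = h / r` (`Opt.deriv`). `w ≥ 0` by `anti`; `GR f = f ∘ y` near `x` (`val`), so `w = 0` would give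
`a = 0` (`|GR f z - GR f x| ≤ L |y z - y x|`); the last clause is the chain rule. -/
theorem Opt.pt (hp : 1 < p) (hn : Nice f L R) (h : Opt f y) {x a d W' : ℝ} (hx : f x < GR f x)
    (hf : HasDerivAt f d x) (ha : HasDerivAt (GR f) a x) (hW : HasDerivAt (WW p f y) W' x) :
    ∃ w, 0 < w ∧ HasDerivAt y (-w) x ∧
      W' = a ^ (p - 1) * (a - d) + (p - 1) / p * a ^ p * (1 + w) ∧
      ∀ e, HasDerivAt f e (y x) → a = w * -e := by
  have hnear := hn.near hx
  have hp0 : 0 < p := by linarith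
  have hp1 : 0 < p - 1 := by linarith
  have hH : HasDerivAt (fun z => GR f z - f z) (a - d) x := ha.sub hf
  have hHx : 0 < GR f x - f x := sub_pos.2 hx
  have hrx : 0 < y x - x := sub_pos.2 (h.lt x hx)
  have hWe : ∀ z, f z < GR f z →
      WW p f y z = (GR f z - f z) ^ p * (y z - z) ^ (1 - p) / p := fun z hz => if_pos hz
  have hWx : 0 < WW p f y x := by
    rw [hWe x hx]
    positivity
  have hye : y =ᶠ[𝓝 x]
      fun z => z + ((GR f z - f z) ^ p / (p * WW p f y z)) ^ (1 / (p - 1)) := by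
    refine hnear.mono fun z hz => ?_
    have h1 : 0 < (GR f z - f z) ^ p := Real.rpow_pos_of_pos (sub_pos.2 hz) p
    have h2 : 0 < y z - z := sub_pos.2 (h.lt z hz)
    have h3 : 0 < (y z - z) ^ (p - 1) := Real.rpow_pos_of_pos h2 _
    have h4 : (GR f z - f z) ^ p / (p * WW p f y z) = (y z - z) ^ (p - 1) := by
      rw [hWe z hz, show 1 - p = -(p - 1) by ring, Real.rpow_neg h2.le]
      field_simp
    change y z = z + ((GR f z - f z) ^ p / (p * WW p f y z)) ^ (1 / (p - 1))
    rw [h4, one_div, Real.rpow_rpow_inv h2.le hp1.ne']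
    ring
  have hyd : DifferentiableAt ℝ y x := by
    refine DifferentiableAt.congr_of_eventuallyEq ?_ hye
    refine differentiableAt_id.add (DifferentiableAt.rpow_const ?_ (Or.inl ?_))
    · exact (hH.differentiableAt.rpow_const (Or.inl hHx.ne')).div
        (hW.differentiableAt.const_mul p) (mul_pos hp0 hWx).ne'
    · exact (div_pos (Real.rpow_pos_of_pos hHx p) (mul_pos hp0 hWx)).ne'
  obtain ⟨u, hy⟩ : ∃ u, HasDerivAt y u x := ⟨_, hyd.hasDerivAt⟩
  have hae := h.deriv hn hx ha
  have ha0 : 0 < a := hae ▸ div_pos hHx hrx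
  have hGe : GR f =ᶠ[𝓝 x] fun z => f (y z) := hnear.mono fun z hz => (h.val z hz).symm
  have hu0 : u ≤ 0 := by
    have h1 : Tendsto (slope y x) (𝓝[>] x) (𝓝 u) :=
      (hasDerivAt_iff_tendsto_slope.1 hy).mono_left (nhdsGT_le_nhdsNE x)
    refine le_of_tendsto h1 ?_
    filter_upwards [hnear.filter_mono nhdsWithin_le_nhds, self_mem_nhdsWithin,
      (eventually_lt_nhds (h.lt x hx)).filter_mono nhdsWithin_le_nhds] with z h2 h3 h4
    have h5 : x < z := h3
    rw [slope_def_field]
    exact div_nonpos_of_nonpos_of_nonneg (sub_nonpos.2 (h.anti x z hx h2 h5.le h4))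
      (sub_pos.2 h5).le
  have hu1 : |a| ≤ L * |u| := by
    refine le_of_tendsto_of_tendsto (hasDerivAt_iff_tendsto_slope.1 ha).abs
      ((hasDerivAt_iff_tendsto_slope.1 hy).abs.const_mul (L : ℝ)) ?_
    filter_upwards [hnear.filter_mono nhdsWithin_le_nhds] with z hz
    rw [slope_def_field, slope_def_field, abs_div, abs_div, ← mul_div_assoc, ← h.val z hz,
      ← h.val x hx]
    exact div_le_div_of_nonneg_right (by
      simpa only [Real.dist_eq] using hn.lip.dist_le_mul (y z) (y x)) (abs_nonneg _)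
  have hu2 : u ≠ 0 := by
    rintro rfl
    rw [abs_zero, mul_zero] at hu1
    exact absurd (abs_pos.2 ha0.ne') (not_lt.2 hu1)
  refine ⟨-u, neg_pos.2 (lt_of_le_of_ne hu0 hu2), by rwa [neg_neg], ?_, fun e he => ?_⟩
  · have h1 : HasDerivAt (fun z => (GR f z - f z) ^ p * (y z - z) ^ (1 - p) / p)
        (((a - d) * p * (GR f x - f x) ^ (p - 1) * (y x - x) ^ (1 - p) +
          (GR f x - f x) ^ p * ((u - 1) * (1 - p) * (y x - x) ^ (1 - p - 1))) / p) x :=
      ((hH.rpow_const (Or.inl hHx.ne')).mul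
        ((hy.sub (hasDerivAt_id x)).rpow_const (Or.inl hrx.ne'))).div_const p
    have h2 := hW.unique (h1.congr_of_eventuallyEq (hnear.mono hWe))
    have h3 : a ^ (p - 1) = (GR f x - f x) ^ (p - 1) * (y x - x) ^ (1 - p) := by
      rw [hae, Real.div_rpow hHx.le hrx.le, show 1 - p = -(p - 1) by ring, Real.rpow_neg hrx.le,
        div_eq_mul_inv]
    have h4 : a ^ p = (GR f x - f x) ^ p * (y x - x) ^ (1 - p - 1) := by
      rw [hae, Real.div_rpow hHx.le hrx.le, show 1 - p - 1 = -p by ring, Real.rpow_neg hrx.le,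
        div_eq_mul_inv]
    rw [h2, h3, h4]
    field_simp
    ring
  · have h1 := ha.unique ((he.comp x hy).congr_of_eventuallyEq hGe)
    rw [h1]
    ring

end Pool.Agent.Lib.MP_25e49d_an.Sob
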