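import Pool.Agent.Lib.MP_25e49d_an.Sob.Base

/-! The constants. -/

set_option autoImplicit false

open MeasureTheory Set Filter Topology
open scoped ENNReal NNReal

namespace Pool.Agent.Lib.MP_25e49d_an.Sob

variable {p c τ : ℝ}

theorem young_aux (hp : 1 < p) {a s u : ℝ} (ha : 0 < a) (hs : 0 < s) (hu : 0 ≤ u) :
    a ^ (p - 1) * u ≤ (p - 1) / p * (a ^ p / s) + 1 / p * (s ^ (p - 1) * u ^ p) := by
  have hp0 : 0 < p := by linarith
  have hw1 : 0 ≤ (p - 1) / p := div_nonneg (by linarith) hp0.le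
  have hw2 : 0 ≤ 1 / p := by positivity
  have h := Real.geom_mean_le_arith_mean2_weighted hw1 hw2
    (p₁ := a ^ p / s) (p₂ := s ^ (p - 1) * u ^ p) (by positivity) (by positivity)
    (by field_simp; ring)
  have e1 : (a ^ p / s) ^ ((p - 1) / p) = a ^ (p - 1) / s ^ ((p - 1) / p) := by
    rw [Real.div_rpow (by positivity) hs.le, ← Real.rpow_mul ha.le]
    congr 2
    field_simp
  have e2 : (s ^ (p - 1) * u ^ p) ^ (1 / p) = s ^ ((p - 1) / p) * u := by
    rw [Real.mul_rpow (by positivity) (by positivity), ← Real.rpow_mul hs.le,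
      ← Real.rpow_mul hu]
    have e3 : (p - 1) * (1 / p) = (p - 1) / p := by ring
    have e4 : p * (1 / p) = 1 := by field_simp
    rw [e3, e4, Real.rpow_one]
  rw [e1, e2] at h
  have hs' : 0 < s ^ ((p - 1) / p) := by positivity
  have e5 : a ^ (p - 1) / s ^ ((p - 1) / p) * (s ^ ((p - 1) / p) * u) = a ^ (p - 1) * u := by
    field_simp
  rwa [e5] at h

/-- Two weighted Young inequalities, both of the form
`a ^ (p - 1) * u ≤ (p - 1) / p * a ^ p / s + s ^ (p - 1) / p * u ^ p` (`s > 0`, `u ≥ 0`): with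
`u = max d 0`, `s = c`, and with `u = e`, `s = τ`, multiplied by `τ w`; then `e2`. -/
theorem young (h : Par p c τ) {a w e : ℝ} (d : ℝ) (ha : 0 < a) (hw : 0 < w) (he : a = w * e) :
    (1 / c + τ) / p * a ^ p ≤ a ^ (p - 1) * (a - d) + (p - 1) / p * a ^ p * (1 + w) +
      c ^ (p - 1) / p * max d 0 ^ p + τ ^ p / p * (w * e ^ p) := by
  have hp := h.hp
  have hp0 : 0 < p := by linarith
  have hc := h.c0
  have ht := h.t0
  have he0 : 0 ≤ e := by
    by_contra hn
    have : w * e < 0 := mul_neg_of_pos_of_neg hw (not_le.mp hn)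
    linarith
  have y1 := young_aux hp ha hc (le_max_right d 0)
  have y2 := young_aux hp ha ht he0
  have hA : a ^ p = a ^ (p - 1) * a := by
    rw [Real.rpow_sub_one ha.ne']
    field_simp
  have hT : τ ^ p = τ ^ (p - 1) * τ := by
    rw [Real.rpow_sub_one ht.ne']
    field_simp
  have hB : 0 < a ^ (p - 1) := by positivity
  have y0 : a ^ (p - 1) * d ≤ a ^ (p - 1) * max d 0 :=
    mul_le_mul_of_nonneg_left (le_max_left d 0) hB.le
  have y3 := mul_le_mul_of_nonneg_left y2 (mul_pos ht hw).le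
  have z1 : τ * w * (a ^ (p - 1) * e) = τ * a ^ p := by
    rw [hA]
    nth_rewrite 3 [he]
    ring
  have z2 : τ * w * ((p - 1) / p * (a ^ p / τ) + 1 / p * (τ ^ (p - 1) * e ^ p)) =
      (p - 1) / p * a ^ p * w + τ ^ p / p * (w * e ^ p) := by
    rw [hT]
    field_simp
  rw [z1, z2] at y3
  have z3 : (1 / c + τ) / p * a ^ p =
      a ^ p - (p - 1) / p * (a ^ p / c) + (p - 1) / p * a ^ p + τ * a ^ p := by
    have e2 := h.e2
    have z4 : a ^ p / c = 1 / c * a ^ p := by ring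
    rw [z4, e2]
    field_simp
    ring
  have z5 : a ^ (p - 1) * (a - d) = a ^ p - a ^ (p - 1) * d := by
    rw [hA]
    ring
  have z6 : c ^ (p - 1) / p * max d 0 ^ p = 1 / p * (c ^ (p - 1) * max d 0 ^ p) := by ring
  have z7 : (p - 1) / p * a ^ p * (1 + w) = (p - 1) / p * a ^ p + (p - 1) / p * a ^ p * w := by
    ring
  rw [z3, z5, z6, z7]
  linarith

theorem Par.sum (h : Par p c τ) : c ^ (p - 1) / p + τ ^ p / p = c ^ p * ((1 / c + τ) / p) := by
  have hc := h.c0
  have ht := h.t0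
  have hT : τ ^ p = c ^ p * τ := by
    rw [h.e1, Real.rpow_sub_one ht.ne']
    field_simp
  rw [hT, Real.rpow_sub_one hc.ne']
  ring

/-- Intermediate value theorem on `[0, 1]`. -/
theorem exists_tau {γ : ℝ} (h : 0 < γ) :
    ∃ t : ℝ, 0 < t ∧ t < 1 ∧ (γ + 1) * t ^ γ + γ * t ^ (γ + 1) = 1 := by
  have h1 : 0 < γ + 1 := by linarith
  have hc : Continuous fun t : ℝ => (γ + 1) * t ^ γ + γ * t ^ (γ + 1) :=
    (continuous_const.mul (Real.continuous_rpow_const h.le)).add
      (continuous_const.mul (Real.continuous_rpow_const h1.le))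
  obtain ⟨t, ht, e⟩ := intermediate_value_Ioo zero_le_one hc.continuousOn (a := 0) (b := 1)
    (show (1 : ℝ) ∈ Ioo _ _ from ⟨by simp [h.ne', h1.ne'], by simp; linarith⟩)
  exact ⟨t, ht.1, ht.2, e⟩

/-- `exists_tau` with `γ = (p - 1) / p`, `c = τ ^ γ`. -/
theorem exists_par (hp : 1 < p) : ∃ c τ : ℝ, Par p c τ ∧ c < 1 ∧
    (p - 1) * c ^ ((2 * p - 1) / (p - 1)) + (2 * p - 1) * c = p := by
  have p0 : 0 < p := by linarith
  have p1 : 0 < p - 1 := by linarith
  have hγ : 0 < (p - 1) / p := div_pos p1 p0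
  obtain ⟨t, t0, t1, e⟩ := exists_tau hγ
  have c0 : 0 < t ^ ((p - 1) / p) := Real.rpow_pos_of_pos t0 _
  refine ⟨t ^ ((p - 1) / p), t, ⟨hp, c0, t0, ?_, ?_⟩, Real.rpow_lt_one t0.le t1 hγ, ?_⟩
  · rw [← Real.rpow_mul t0.le, div_mul_cancel₀ _ p0.ne']
  · rw [Real.rpow_add_one t0.ne'] at e
    rw [div_eq_iff c0.ne']
    linarith
  · rw [← Real.rpow_mul t0.le, show (p - 1) / p * ((2 * p - 1) / (p - 1)) = (p - 1) / p + 1 by
      field_simp; ring]
    generalize t ^ ((p - 1) / p + 1) = u at e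
    generalize t ^ ((p - 1) / p) = v at e
    field_simp at e
    linarith

/-- `(γ + 1) C + γ C ^ ((γ + 1) / γ) ≥ 1` for all these `γ` (so `C > 0`); let `γ ↓ (p - 1) / p`;
the left side of the equation is strictly increasing in `c`. -/
theorem root_le (hp : 1 < p) (hc : 0 < c)
    (he : (p - 1) * c ^ ((2 * p - 1) / (p - 1)) + (2 * p - 1) * c = p) {C : ℝ}
    (h : ∀ γ : ℝ, (p - 1) / p < γ → γ < 1 → ∃ t : ℝ, 0 < t ∧
      (γ + 1) * t ^ γ + γ * t ^ (γ + 1) = 1 ∧ t ^ γ ≤ C) : c ≤ C := by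
  have p0 : 0 < p := by linarith
  have p1 : 0 < p - 1 := by linarith
  have b0 : 0 < (p - 1) / p := div_pos p1 p0
  have b1 : (p - 1) / p < 1 := (div_lt_one p0).2 (by linarith)
  have C0 : 0 < C := by
    obtain ⟨t, t0, -, e⟩ := h (((p - 1) / p + 1) / 2) (by linarith) (by linarith)
    exact (Real.rpow_pos_of_pos t0 _).trans_le e
  have h1 : ∀ γ ∈ Ioo ((p - 1) / p) 1, 1 ≤ (γ + 1) * C + γ * C ^ ((γ + 1) / γ) := fun γ hγ => by
    obtain ⟨t, t0, e, e'⟩ := h γ hγ.1 hγ.2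
    have g0 : 0 < γ := b0.trans hγ.1
    have h2 := Real.rpow_le_rpow (Real.rpow_pos_of_pos t0 γ).le e'
      (by positivity : 0 ≤ (γ + 1) / γ)
    rw [← Real.rpow_mul t0.le, mul_div_cancel₀ _ g0.ne'] at h2
    refine e.ge.trans ?_
    gcongr
  have h3 : ContinuousAt (fun γ : ℝ => (γ + 1) * C + γ * C ^ ((γ + 1) / γ)) ((p - 1) / p) :=
    ((continuousAt_id.add continuousAt_const).mul continuousAt_const).add (continuousAt_id.mul
      (continuousAt_const.rpow ((continuousAt_id.add continuousAt_const).div continuousAt_id b0.ne')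
        (Or.inl C0.ne')))
  have h4 := ge_of_tendsto (h3.tendsto.mono_left (nhdsWithin_le_nhds (s := Ioi ((p - 1) / p))))
    (Filter.mem_of_superset (Ioo_mem_nhdsGT b1) h1)
  rw [show ((p - 1) / p + 1) / ((p - 1) / p) = (2 * p - 1) / (p - 1) by field_simp; ring] at h4
  by_contra hlt
  have h5 := not_le.1 hlt
  have h6 := Real.rpow_le_rpow C0.le h5.le
    (div_nonneg (by linarith) p1.le : 0 ≤ (2 * p - 1) / (p - 1))
  generalize C ^ ((2 * p - 1) / (p - 1)) = u at h4 h6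
  generalize c ^ ((2 * p - 1) / (p - 1)) = v at he h6
  field_simp at h4
  nlinarith [mul_le_mul_of_nonneg_left h6 p1.le, mul_lt_mul_of_pos_left h5 p0]

end Pool.Agent.Lib.MP_25e49d_an.Sob
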