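import Pool.Agent.Lib.MP_25e49d_an.Sob.B
import Pool.Agent.Lib.MP_25e49d_an.Sob.D
import Pool.Agent.Lib.MP_25e49d_an.Sob.E
import Pool.Agent.Lib.MP_25e49d_an.Sob.F

/-! The one-sided inequality. -/

set_option autoImplicit false

open MeasureTheory Set Filter Topology
open scoped ENNReal NNReal

namespace Pool.Agent.Lib.MP_25e49d_an.Sob

theorem core_pt {p c τ : ℝ} (hP : Par p c τ) {f y : ℝ → ℝ} {L : ℝ≥0} {R K : ℝ} (hn : Nice f L R)
    (hy : Opt f y) (hK : 0 ≤ K) (hm : Monotone fun x => WW p f y x + K * x) {x : ℝ}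
    (h1 : DifferentiableAt ℝ f x) (h2 : DifferentiableAt ℝ (GR f) x)
    (h3 : DifferentiableAt ℝ (WW p f y) x) {S : Set ℝ} (hS : f x < GR f x → x ∈ S)
    {g : ℝ → ℝ≥0∞} (hg : ∀ z, DifferentiableAt ℝ f z → g z = .ofReal (max (-deriv f z) 0 ^ p))
    (hg' : ∀ z, ¬ DifferentiableAt ℝ f z → g z = ⊤) :
    ENNReal.ofReal ((1 / c + τ) / p) * .ofReal (max (deriv (GR f) x) 0 ^ p) + .ofReal K ≤
      .ofReal (deriv (fun x => WW p f y x + K * x) x) +
        (.ofReal (c ^ (p - 1) / p) * .ofReal (max (deriv f x) 0 ^ p) + .ofReal (τ ^ p / p) *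
          S.indicator (fun z => .ofReal |deriv y z| * g (y z)) x) := by
  have hp := hP.hp
  have p0 : 0 < p := by linarith
  have c0 := hP.c0
  have t0 := hP.t0
  have hV : deriv (fun x => WW p f y x + K * x) x = deriv (WW p f y) x + K := by
    simpa using (h3.hasDerivAt.fun_add ((hasDerivAt_id' x).const_mul K)).deriv
  have hV0 : 0 ≤ deriv (WW p f y) x + K := hV ▸ hm.deriv_nonneg
  rw [hV]
  by_cases hx : f x < GR f x
  · obtain ⟨w, w0, hw, e1, e2⟩ := hy.pt hp hn hx h1.hasDerivAt h2.hasDerivAt h3.hasDerivAt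
    have a0 : 0 < deriv (GR f) x := by
      rw [hy.deriv hn hx h2.hasDerivAt]
      exact div_pos (sub_pos.2 hx) (sub_pos.2 (hy.lt x hx))
    rw [indicator_of_mem (hS hx), hw.deriv, abs_neg, abs_of_pos w0, max_eq_left a0.le]
    by_cases hd : DifferentiableAt ℝ f (y x)
    · have e3 := e2 _ hd.hasDerivAt
      have e0 : 0 < -deriv f (y x) := (pos_iff_pos_of_mul_pos (e3 ▸ a0)).1 w0
      have h4 := young hP (deriv f x) a0 w0 e3
      have m0 : 0 ≤ max (deriv f x) 0 := le_max_right _ _
      rw [hg _ hd, max_eq_left e0.le, ← ENNReal.ofReal_mul (by positivity),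
        ← ENNReal.ofReal_mul (by positivity), ← ENNReal.ofReal_mul (by positivity),
        ← ENNReal.ofReal_mul (by positivity), ← ENNReal.ofReal_add (by positivity) hK,
        ← ENNReal.ofReal_add (by positivity) (by positivity),
        ← ENNReal.ofReal_add hV0 (by positivity)]
      exact ENNReal.ofReal_le_ofReal (by linarith)
    · rw [hg' _ hd, ENNReal.mul_top (by simpa using w0),
        ENNReal.mul_top (ENNReal.ofReal_pos.2 (by positivity)).ne']
      simp
  · have h4 := contact_le hn hx h1.hasDerivAt h2.hasDerivAt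
    have h5 : IsLocalMin (WW p f y) x := Eventually.of_forall fun z => by
      rw [WW, if_neg hx]
      exact W_nonneg hp hy z
    rw [h5.deriv_eq_zero, max_eq_right h4, Real.zero_rpow p0.ne']
    simp

theorem core {p c τ : ℝ} (hP : Par p c τ) {f : ℝ → ℝ} {L : ℝ≥0} {R : ℝ} (hn : Nice f L R) :
    ENNReal.ofReal ((1 / c + τ) / p) * Ep p (GR f) ≤
      ENNReal.ofReal (c ^ (p - 1) / p) * Ep p f + ENNReal.ofReal (τ ^ p / p) * Em p f := by
  classical
  have hp := hP.hp
  obtain ⟨y, hy⟩ := exists_opt hn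
  obtain ⟨K, hK, hm⟩ : ∃ K : ℝ, 0 ≤ K ∧ Monotone fun x => WW p f y x + K * x := by
    obtain ⟨K, hK⟩ := W_mono hp hn hy
    refine ⟨|K|, abs_nonneg K, fun a b hab => ?_⟩
    have h1 := hK hab
    have h2 := mul_nonneg (sub_nonneg.2 (le_abs_self K)) (sub_nonneg.2 hab)
    simp only at h1 ⊢
    linarith
  have d1 := hn.lip.ae_differentiableAt_real
  have d2 := (GR_lip hn).ae_differentiableAt_real
  have d3 : ∀ᵐ x, DifferentiableAt ℝ (WW p f y) x := hm.ae_differentiableAt.mono fun x hx => by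
    simpa using hx.fun_sub ((differentiableAt_fun_id (x := x)).const_mul K)
  obtain ⟨S, hS⟩ : ∃ S : Set ℝ, S = {x | f x < GR f x} ∩ ({x | DifferentiableAt ℝ f x} ∩
    ({x | DifferentiableAt ℝ (GR f) x} ∩ {x | DifferentiableAt ℝ (WW p f y) x})) := ⟨_, rfl⟩
  have mS : MeasurableSet S := hS ▸
    (isOpen_lt hn.lip.continuous (GR_lip hn).continuous).measurableSet.inter
      ((measurableSet_of_differentiableAt ℝ _).inter
        ((measurableSet_of_differentiableAt ℝ _).inter (measurableSet_of_differentiableAt ℝ _)))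
  obtain ⟨g, hg⟩ : ∃ g : ℝ → ℝ≥0∞, ∀ z, g z =
    if DifferentiableAt ℝ f z then .ofReal (max (-deriv f z) 0 ^ p) else ⊤ := ⟨_, fun _ => rfl⟩
  have cv : ∫⁻ z in S, .ofReal |deriv y z| * g (y z) ≤ Em p f := by
    rw [← lintegral_image_eq_lintegral_abs_deriv_mul mS (f := y) (f' := deriv y)]
    · refine (setLIntegral_le_lintegral _ _).trans (lintegral_congr_ae ?_).le
      exact d1.mono fun z hz => by rw [hg, if_pos hz]
    · intro x hx
      rw [hS] at hx
      obtain ⟨w, -, hw, -⟩ := hy.pt hp hn hx.1 hx.2.1.hasDerivAt hx.2.2.1.hasDerivAt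
        hx.2.2.2.hasDerivAt
      exact hw.differentiableAt.hasDerivAt.hasDerivWithinAt
    · exact (hy.inj hn).mono fun x hx => by
        rw [hS] at hx
        exact ⟨hx.1, hx.2.2.1⟩
  have key : ∀ T : ℝ, |R| ≤ T → ENNReal.ofReal ((1 / c + τ) / p) *
      ∫⁻ x in Ioc (-T) T, .ofReal (max (deriv (GR f) x) 0 ^ p) ≤
      ENNReal.ofReal (c ^ (p - 1) / p) * Ep p f + ENNReal.ofReal (τ ^ p / p) * Em p f := by
    intro T hT
    have hT0 : -T ≤ T := by linarith [abs_nonneg R]
    have h1 := lintegral_mono_ae (μ := volume.restrict (Ioc (-T) T)) (ae_restrict_of_ae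
      ((d1.and (d2.and d3)).mono fun x hx => core_pt hP hn hy hK hm hx.1 hx.2.1 hx.2.2 (S := S)
        (fun h => hS ▸ ⟨h, hx⟩) (g := g) (fun z hz => by rw [hg, if_pos hz])
        fun z hz => by rw [hg, if_neg hz]))
    rw [lintegral_add_right _ measurable_const, lintegral_add_left (by fun_prop),
      lintegral_add_left (by fun_prop), lintegral_const_mul' _ _ ENNReal.ofReal_ne_top,
      lintegral_const_mul' _ _ ENNReal.ofReal_ne_top,
      lintegral_const_mul' _ _ ENNReal.ofReal_ne_top, setLIntegral_const, Real.volume_Ioc,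
      ← ENNReal.ofReal_mul hK] at h1
    have h2 : ∫⁻ x in Ioc (-T) T, .ofReal (deriv (fun x => WW p f y x + K * x) x) ≤
        ENNReal.ofReal (K * (T - -T)) := by
      have h3 := (hm.monotoneOn (uIcc (-T) T)).intervalIntegrable_deriv
      have h4 := (hm.monotoneOn (uIcc (-T) T)).intervalIntegral_deriv_mem_uIcc
      rw [← ofReal_integral_eq_lintegral_ofReal h3.1
        (Eventually.of_forall fun x => hm.deriv_nonneg), ← intervalIntegral.integral_of_le hT0]
      rw [uIcc_of_le (sub_nonneg.2 (hm hT0))] at h4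
      refine ENNReal.ofReal_le_ofReal (h4.2.trans ?_)
      have h5 : WW p f y T = 0 := by
        rw [WW, if_neg]
        rw [GR_zero hn hT]
        exact (hn.nonneg T).not_gt
      linarith [W_nonneg hp hy (-T)]
    refine (ENNReal.add_le_add_iff_right (a := .ofReal (K * (T - -T))) ENNReal.ofReal_ne_top).1
      (h1.trans ?_)
    rw [add_comm]
    refine add_le_add (add_le_add (mul_le_mul_right (setLIntegral_le_lintegral _ _) _)
      (mul_le_mul_right ((setLIntegral_le_lintegral _ _).trans ?_) _)) h2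
    rwa [lintegral_indicator mS]
  have hU : ⋃ n : ℕ, Ioc (-(|R| + n)) (|R| + n) = (univ : Set ℝ) := by
    refine eq_univ_of_forall fun x => ?_
    obtain ⟨n, hn⟩ := exists_nat_gt |x|
    have := abs_lt.1 hn
    exact mem_iUnion.2 ⟨n, by linarith [abs_nonneg R], by linarith [abs_nonneg R]⟩
  rw [Ep, ← setLIntegral_univ, ← hU, setLIntegral_iUnion_of_directed, ENNReal.mul_iSup]
  · exact iSup_le fun n => key _ (le_add_of_nonneg_right n.cast_nonneg)
  · refine Monotone.directed_le fun a b hab => ?_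
    have : (a : ℝ) ≤ b := by exact_mod_cast hab
    exact Ioc_subset_Ioc (by linarith) (by linarith)

end Pool.Agent.Lib.MP_25e49d_an.Sob
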