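import Mathlib

/-! The `p`-variation of F. Riesz. -/

set_option autoImplicit false

open scoped ENNReal

namespace Pool.Agent.Lib.MP_25e49d_an

/-- The supremum over all finite partitions `x 0 ≤ x 1 ≤ ⋯ ≤ x n` of
`∑ |g (x (i + 1)) - g (x i)| ^ p / (x (i + 1) - x i) ^ (p - 1)` (a repeated node contributes `0`).
For `p = 1` this is the total variation, for `p > 1` it is `∫ |g'| ^ p` (F. Riesz). -/
noncomputable def rieszVar (p : ℝ) (g : ℝ → ℝ) : ℝ≥0∞ :=
  ⨆ (n : ℕ) (x : ℕ → ℝ) (_ : Monotone x), ENNReal.ofReal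
    (∑ i ∈ Finset.range n, |g (x (i + 1)) - g (x i)| ^ p / (x (i + 1) - x i) ^ (p - 1))

end Pool.Agent.Lib.MP_25e49d_an
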