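import Pool.Agent.Lib.MP_25e49d_an.Sob.Base

/-! The Riesz variation and the energy. -/

set_option autoImplicit false

open MeasureTheory Set Filter Topology
open scoped ENNReal NNReal

namespace Pool.Agent.Lib.MP_25e49d_an.Sob

variable {p : ℝ} {g : ℝ → ℝ}

theorem sum_le_rv (p : ℝ) (g : ℝ → ℝ) (n : ℕ) {x : ℕ → ℝ} (hx : Monotone x) :
    ENNReal.ofReal (∑ i ∈ Finset.range n,
      |g (x (i + 1)) - g (x i)| ^ p / (x (i + 1) - x i) ^ (p - 1)) ≤ rieszVar p g :=
  le_iSup_of_le n (le_iSup₂_of_le x hx le_rfl)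

theorem rv1_one (hp : 1 < p) {φ : ℝ → ℝ} {a b : ℝ} (hab : a ≤ b)
    (hφ : IntervalIntegrable φ volume a b) :
    ENNReal.ofReal (|∫ x in a..b, φ x| ^ p / (b - a) ^ (p - 1)) ≤
      ∫⁻ x in Ioc a b, ENNReal.ofReal (|φ x| ^ p) := by
  have p0 : 0 < p := by linarith
  rcases hab.eq_or_lt with rfl | hlt
  · simp [Real.zero_rpow p0.ne']
  have hd : 0 < b - a := sub_pos.2 hlt
  have hq := Real.HolderConjugate.conjExponent hp
  have hm : AEMeasurable (fun x => ‖φ x‖ₑ) (volume.restrict (Ioc a b)) := hφ.1.aemeasurable.enorm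
  have h1 := ENNReal.lintegral_mul_le_Lp_mul_Lq (volume.restrict (Ioc a b)) hq hm
    (aemeasurable_const (b := (1 : ℝ≥0∞)))
  have h2 : ENNReal.ofReal |∫ x in a..b, φ x| ≤ ∫⁻ x in Ioc a b, ‖φ x‖ₑ := by
    rw [intervalIntegral.integral_of_le hab, ← Real.enorm_eq_ofReal_abs]
    exact enorm_integral_le_lintegral_enorm _
  have e1 : ∀ x, ‖φ x‖ₑ ^ p = ENNReal.ofReal (|φ x| ^ p) := fun x => by
    rw [Real.enorm_eq_ofReal_abs, ENNReal.ofReal_rpow_of_nonneg (abs_nonneg _) p0.le]
  simp only [Pi.mul_apply, mul_one, ENNReal.one_rpow, lintegral_const, one_mul,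
    Measure.restrict_apply_univ, Real.volume_Ioc, e1] at h1
  have h3 := ENNReal.rpow_le_rpow (h2.trans h1) p0.le
  have e2 : 1 / Real.conjExponent p * p = p - 1 := by
    have : p - 1 ≠ 0 := by linarith
    unfold Real.conjExponent
    field_simp
  rw [ENNReal.mul_rpow_of_nonneg _ _ p0.le, ← ENNReal.rpow_mul, ← ENNReal.rpow_mul,
    one_div_mul_cancel p0.ne', ENNReal.rpow_one, e2,
    ENNReal.ofReal_rpow_of_nonneg (abs_nonneg _) p0.le, ENNReal.ofReal_rpow_of_pos hd] at h3
  rw [ENNReal.ofReal_div_of_pos (Real.rpow_pos_of_pos hd _)]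
  exact ENNReal.div_le_of_le_mul h3

/-- Hölder (or Jensen) on each `Ioc (x i) (x (i + 1))`, then add the disjoint pieces (induction on
`n` with the bound `∫⁻ in Ioc (x 0) (x n)`). -/
theorem rv_le (hp : 1 < p) {φ : ℝ → ℝ} (hφ : ∀ a b, IntervalIntegrable φ volume a b)
    (hg : ∀ a b, g b - g a = ∫ x in a..b, φ x) :
    rieszVar p g ≤ ∫⁻ x, ENNReal.ofReal (|φ x| ^ p) := by
  refine iSup_le fun n => iSup₂_le fun x hx => ?_
  refine le_trans ?_ (setLIntegral_le_lintegral (Ioc (x 0) (x n)) _)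
  induction n with
  | zero => simp
  | succ n ih =>
    have h1 : x 0 ≤ x n := hx n.zero_le
    have h2 : x n ≤ x (n + 1) := hx n.le_succ
    rw [Finset.sum_range_succ, ← Ioc_union_Ioc_eq_Ioc h1 h2,
      lintegral_union measurableSet_Ioc (Ioc_disjoint_Ioc_of_le le_rfl), hg (x n)]
    exact ENNReal.ofReal_add_le.trans (add_le_add ih (rv1_one hp h2 (hφ _ _)))

/-- `LipschitzOnWith.absolutelyContinuousOnInterval`,
`AbsolutelyContinuousOnInterval.integral_deriv_eq_sub`. -/
theorem rv_lip (hp : 1 < p) {L : ℝ≥0} (h : LipschitzWith L g) : rieszVar p g ≤ En p g := by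
  have ac : ∀ a b, AbsolutelyContinuousOnInterval g a b := fun a b =>
    h.lipschitzOnWith.absolutelyContinuousOnInterval
  exact rv_le hp (fun a b => (ac a b).intervalIntegrable_deriv) fun a b =>
    (ac a b).integral_deriv_eq_sub.symm

theorem rv2_step (h : rieszVar p g ≠ ⊤) {a b : ℝ} (hab : a < b) :
    |g b - g a| ^ p ≤ (rieszVar p g).toReal * (b - a) ^ (p - 1) := by
  have hm : Monotone fun i : ℕ => if i = 0 then a else b := by
    intro i j hij
    by_cases hi : i = 0 <;> by_cases hj : j = 0 <;> simp [hi, hj, hab.le]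
    omega
  have h1 := sum_le_rv p g 1 hm
  simp only [Finset.range_one, Finset.sum_singleton, zero_add, one_ne_zero, if_false,
    if_true] at h1
  rw [ENNReal.ofReal_le_iff_le_toReal h,
    div_le_iff₀ (Real.rpow_pos_of_pos (sub_pos.2 hab) _)] at h1
  exact h1

theorem rv2_abs (hp : 1 < p) (h : rieszVar p g ≠ ⊤) (a b : ℝ) :
    |g b - g a| ^ p ≤ (rieszVar p g).toReal * |b - a| ^ (p - 1) := by
  rcases lt_trichotomy a b with hab | rfl | hab
  · rw [abs_of_pos (sub_pos.2 hab)]; exact rv2_step h hab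
  · rw [sub_self, sub_self, abs_zero, Real.zero_rpow (by linarith), Real.zero_rpow (by linarith),
      mul_zero]
  · rw [abs_sub_comm (g b), abs_sub_comm b, abs_of_pos (sub_pos.2 hab)]; exact rv2_step h hab

/-- `|g b - g a| ^ p ≤ V (b - a) ^ (p - 1)` from the partition with one step. -/
theorem rv_cont (hp : 1 < p) (h : rieszVar p g ≠ ⊤) : Continuous g := by
  refine continuous_iff_continuousAt.2 fun a => ?_
  have hp0 : 0 < p := by linarith
  have c1 : Continuous fun b : ℝ =>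
      ((rieszVar p g).toReal * |b - a| ^ (p - 1)) ^ p⁻¹ := by
    refine Continuous.rpow_const ?_ fun _ => Or.inr (inv_nonneg.2 hp0.le)
    exact continuous_const.mul ((continuous_id.sub continuous_const).abs.rpow_const
      fun _ => Or.inr (by linarith))
  have c2 := c1.tendsto a
  rw [sub_self, abs_zero, Real.zero_rpow (by linarith), mul_zero,
    Real.zero_rpow (inv_pos.2 hp0).ne'] at c2
  rw [ContinuousAt, tendsto_iff_dist_tendsto_zero]
  refine squeeze_zero (fun _ => dist_nonneg) (fun b => ?_) c2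
  rw [Real.dist_eq, Real.le_rpow_inv_iff_of_pos (abs_nonneg _)
    (mul_nonneg ENNReal.toReal_nonneg (Real.rpow_nonneg (abs_nonneg _) _)) hp0]
  exact rv2_abs hp h a b

/-- Each partition sum is continuous under pointwise convergence. -/
theorem rv_lsc (hp : 1 < p) {u : ℕ → ℝ → ℝ} (hu : ∀ x, Tendsto (fun n => u n x) atTop (𝓝 (g x)))
    {V : ℕ → ℝ≥0∞} {V₀ : ℝ≥0∞} (hV : Tendsto V atTop (𝓝 V₀)) (h : ∀ n, rieszVar p (u n) ≤ V n) :
    rieszVar p g ≤ V₀ := by
  refine iSup_le fun n => iSup₂_le fun x hx => ?_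
  refine le_of_tendsto_of_tendsto' (ENNReal.tendsto_ofReal (tendsto_finsetSum _ fun i _ => ?_)) hV
    fun m => (sum_le_rv p (u m) n hx).trans (h m)
  exact ((((hu _).sub (hu _)).abs).rpow_const (Or.inr (by linarith))).div_const _

end Pool.Agent.Lib.MP_25e49d_an.Sob
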