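import Pool.Agent.Lib.MP_25e49d_an.Sob.M
import Pool.Agent.Lib.MP_25e49d_an.Sob.Rv

/-! The test functions. -/

set_option autoImplicit false

open MeasureTheory Set Filter Topology
open scoped ENNReal NNReal

namespace Pool.Agent.Lib.MP_25e49d_an.Sob

variable {p γ t : ℝ}

theorem ex1_cont (hγ : 0 < γ) : Continuous (fx γ) :=
  (continuous_const.sub (continuous_abs.rpow_const fun _ => Or.inr hγ.le)).max continuous_const

theorem ex1_int (hγ : 0 < γ) {r : ℝ} (hr : 0 ≤ r) :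
    ∫ u in (0 : ℝ)..r, |u| ^ γ = r ^ (γ + 1) / (γ + 1) := by
  rw [intervalIntegral.integral_congr (g := fun u => u ^ γ) fun u hu => by
      rw [uIcc_of_le hr] at hu
      simp only [abs_of_nonneg hu.1],
    integral_rpow (Or.inl (by linarith)), Real.zero_rpow (by linarith), sub_zero]

theorem ex1_le (hγ : 0 < γ) {r u : ℝ} (h0 : 0 ≤ r) (h1 : r ≤ 1) (h : r ≤ |u|) :
    fx γ u ≤ 1 - r ^ γ :=
  max_le (sub_le_sub_left (Real.rpow_le_rpow h0 h hγ.le) _)
    (sub_nonneg.2 (Real.rpow_le_one h0 h1 hγ.le))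

theorem ex1_ge (hγ : 0 < γ) {r u : ℝ} (h : |u| ≤ r) : 1 - r ^ γ ≤ fx γ u :=
  (sub_le_sub_left (Real.rpow_le_rpow (abs_nonneg u) h hγ.le) _).trans (le_max_left _ _)

theorem ex1_avg {f : ℝ → ℝ} (hf : Continuous f) {a z : ℝ} (v : ℝ) (h : a < z) :
    avg f a z = v + (∫ u in a..z, (f u - v)) / (z - a) := by
  have h1 : z - a ≠ 0 := (sub_pos.2 h).ne'
  rw [intervalIntegral.integral_sub (hf.intervalIntegrable _ _)
    (continuous_const.intervalIntegrable _ _), intervalIntegral.integral_const, avg, smul_eq_mul]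
  field_simp
  ring

theorem ex1_zero (hγ : 0 < γ) (ht : 0 < t) (ht1 : t < 1)
    (he : (γ + 1) * t ^ γ + γ * t ^ (γ + 1) = 1) {s : ℝ} (h0 : 0 ≤ s) (h1 : s ≤ 1) :
    ∫ u in (-s)..(t * s), (fx γ u - (1 - (t * s) ^ γ)) = 0 := by
  have hts : 0 ≤ t * s := mul_nonneg ht.le h0
  have hc : Continuous fun u : ℝ => |u| ^ γ := continuous_abs.rpow_const fun _ => Or.inr hγ.le
  have e1 : ∫ u in (-s)..(0 : ℝ), |u| ^ γ = s ^ (γ + 1) / (γ + 1) := by
    have h := intervalIntegral.integral_comp_neg (a := 0) (b := s) fun u : ℝ => |u| ^ γ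
    simp only [abs_neg, neg_zero] at h
    rw [← h, ex1_int hγ h0]
  rw [intervalIntegral.integral_congr (g := fun u => (t * s) ^ γ - |u| ^ γ) fun u hu => by
      rw [uIcc_of_le (by linarith)] at hu
      have h2 : |u| ≤ 1 := abs_le.2 ⟨by linarith [hu.1], by nlinarith [hu.2]⟩
      simp only [fx]
      rw [max_eq_left (sub_nonneg.2 (Real.rpow_le_one (abs_nonneg u) h2 hγ.le))]
      ring,
    intervalIntegral.integral_sub (continuous_const.intervalIntegrable _ _)
      (hc.intervalIntegrable _ _), intervalIntegral.integral_const,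
    ← intervalIntegral.integral_add_adjacent_intervals (b := 0) (hc.intervalIntegrable _ _)
      (hc.intervalIntegrable _ _), e1, ex1_int hγ hts, smul_eq_mul, Real.mul_rpow ht.le h0,
    Real.mul_rpow ht.le h0, Real.rpow_add_one' h0 (by linarith)]
  rw [Real.rpow_add_one ht.ne'] at he ⊢
  have h3 : γ + 1 ≠ 0 := by linarith
  field_simp
  linear_combination s * s ^ γ * he

theorem ex1_main (hγ : 0 < γ) (ht : 0 < t) (ht1 : t < 1)
    (he : (γ + 1) * t ^ γ + γ * t ^ (γ + 1) = 1) {s : ℝ} (h0 : 0 ≤ s) (h1 : s ≤ 1) :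
    max (GR (fx γ) s) (GR (fx γ) (-s)) = 1 - t ^ γ * s ^ γ := by
  have hts : 0 ≤ t * s := mul_nonneg ht.le h0
  have hts1 : t * s ≤ s := by nlinarith
  have hc := ex1_cont hγ
  have hB : ∀ u, fx γ u ≤ 1 := fun u =>
    max_le (sub_le_self _ (Real.rpow_nonneg (abs_nonneg u) _)) zero_le_one
  have hz := ex1_zero hγ ht ht1 he h0 h1
  rw [← Real.mul_rpow ht.le h0]
  set v := 1 - (t * s) ^ γ with hv
  have hi : ∀ a b : ℝ, IntervalIntegrable (fun u => fx γ u - v) volume a b := fun a b =>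
    (hc.sub continuous_const).intervalIntegrable _ _
  have hn : ∀ a b : ℝ, a ≤ b → (∀ u ∈ Icc a b, t * s ≤ |u|) →
      ∫ u in a..b, (fx γ u - v) ≤ 0 := fun a b hab h => by
    have h2 := intervalIntegral.integral_nonneg (μ := volume) (f := fun u => -(fx γ u - v)) hab
      fun u hu => by linarith [ex1_le hγ hts (hts1.trans h1) (h u hu)]
    rw [intervalIntegral.integral_neg] at h2
    linarith
  have hu : ∀ a z : ℝ, a < z → ∫ u in a..z, (fx γ u - v) ≤ 0 → avg (fx γ) a z ≤ v :=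
    fun a z haz h => by
      rw [ex1_avg hc v haz]
      linarith [div_nonpos_of_nonpos_of_nonneg h (sub_pos.2 haz).le]
  refine le_antisymm (max_le (GR_le fun y hy => hu _ _ hy (hn _ _ hy.le fun u hu => ?_))
    (GR_le fun z hz' => hu _ _ hz' ?_)) (le_max_of_le_right ?_)
  · exact hts1.trans (hu.1.trans (le_abs_self u))
  · rcases le_total z (-(t * s)) with h2 | h2
    · exact hn _ _ hz'.le fun u hu => by linarith [neg_le_abs u, hu.2]
    have h3 := intervalIntegral.integral_add_adjacent_intervals (hi (-s) (t * s)) (hi (t * s) z)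
    rw [← h3, hz, zero_add]
    rcases le_total z (t * s) with h4 | h4
    · rw [intervalIntegral.integral_symm, neg_nonpos]
      exact intervalIntegral.integral_nonneg h4 fun u hu =>
        sub_nonneg.2 (ex1_ge hγ (abs_le.2 ⟨h2.trans hu.1, hu.2⟩))
    · exact hn _ _ h4 fun u hu => hu.1.trans (le_abs_self u)
  · rcases h0.eq_or_lt with rfl | h2
    · exact (ex1_ge hγ (by simp)).trans (le_GR hc hB _)
    · have h3 : -s < t * s := by linarith
      refine le_trans (le_of_eq ?_) (avg_le_GR hc hB h3)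
      rw [ex1_avg hc v h3, hz, zero_div, add_zero]

/-- `Mx_eq`; `fx γ` is even, continuous, in `[0, 1]`. For `0 ≤ s ≤ 1`, `v = 1 - (t s) ^ γ`:
`GR (fx γ) s ≤ fx γ s ≤ v`, and `GR (fx γ) (-s) = v`: `H z = ∫ u in -s..z, (fx γ u - v)` has
integrand `≥ 0` exactly for `|u| ≤ t s`, and `H (-s) = H (t s) = 0` (`integral_rpow` and the
equation), so `H ≤ 0`; for `s = 0` use `le_GR`. -/
theorem Mx_ex (hγ : 0 < γ) (ht : 0 < t) (ht1 : t < 1)
    (he : (γ + 1) * t ^ γ + γ * t ^ (γ + 1) = 1) {x : ℝ} (hx : |x| ≤ 1) :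
    Mx (fx γ) x = 1 - t ^ γ * |x| ^ γ := by
  have hp : ∀ u, 0 ≤ fx γ u := fun u => le_max_right _ _
  have e1 : (fun s => |fx γ s|) = fx γ := funext fun u => abs_of_nonneg (hp u)
  have e2 : (fun s => |fx γ (-s)|) = fx γ := funext fun u => by
    rw [abs_of_nonneg (hp _), fx, fx, abs_neg]
  rw [Mx_eq (ex1_cont hγ) (B := 1) (fun u => by
    rw [abs_of_nonneg (hp u)]
    exact max_le (sub_le_self _ (Real.rpow_nonneg (abs_nonneg u) _)) zero_le_one), e1, e2,
    ← ex1_main hγ ht ht1 he (abs_nonneg x) hx]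
  rcases abs_cases x with h | h
  · rw [h.1]
  · rw [h.1, neg_neg, max_comm]

theorem ex2_int (c : ℝ) {q : ℝ} (hq : -1 < q) :
    Integrable ((Ioc (0 : ℝ) 1).indicator fun x => c * x ^ q) :=
  (integrable_indicator_iff measurableSet_Ioc).2
    ((intervalIntegral.intervalIntegrable_rpow' hq (a := 0) (b := 1)).const_mul c).1

theorem ex2_prim (hγ : 0 < γ) (x : ℝ) :
    ∫ s in (0 : ℝ)..x, (Ioc (0 : ℝ) 1).indicator (fun s => γ * s ^ (γ - 1)) s =
      max (min x 1) 0 ^ γ := by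
  rcases le_total x 0 with h | h
  · rw [max_eq_right ((min_le_left _ _).trans h), Real.zero_rpow hγ.ne',
      intervalIntegral.integral_of_ge h, neg_eq_zero]
    exact setIntegral_eq_zero_of_forall_eq_zero fun s hs =>
      indicator_of_notMem (fun e => e.1.not_ge hs.2) _
  · have h0 : 0 ≤ min x 1 := le_min h zero_le_one
    rw [max_eq_left h0, intervalIntegral.integral_of_le h,
      setIntegral_indicator measurableSet_Ioc, Ioc_inter_Ioc, sup_idem,
      ← intervalIntegral.integral_of_le h0, intervalIntegral.integral_const_mul,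
      integral_rpow (Or.inl (by linarith)), sub_add_cancel, Real.zero_rpow hγ.ne', sub_zero,
      mul_div_cancel₀ _ hγ.ne']

theorem ex2_fx (hγ : 0 < γ) (x : ℝ) :
    fx γ x = 1 - max (min x 1) 0 ^ γ - max (min (-x) 1) 0 ^ γ := by
  have key : ∀ y : ℝ, 0 ≤ y → max (1 - y ^ γ) 0 = 1 - max (min y 1) 0 ^ γ := fun y hy => by
    rcases le_total y 1 with h | h
    · rw [min_eq_left h, max_eq_left hy, max_eq_left (sub_nonneg.2 (Real.rpow_le_one hy h hγ.le))]
    · rw [min_eq_right h, max_eq_left zero_le_one, Real.one_rpow, sub_self,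
        max_eq_right (sub_nonpos.2 (Real.one_le_rpow h hγ.le))]
  have z : ∀ y : ℝ, y ≤ 0 → max (min y 1) 0 ^ γ = 0 := fun y hy => by
    rw [max_eq_right ((min_le_left _ _).trans hy), Real.zero_rpow hγ.ne']
  rcases le_total x 0 with h | h
  · rw [fx, abs_of_nonpos h, key _ (neg_nonneg.2 h), z x h, sub_zero]
  · rw [fx, abs_of_nonneg h, key _ h, z _ (neg_nonpos.2 h), sub_zero]

/-- `rv_le` with `φ x = -γ sign x |x| ^ (γ - 1)` for `|x| < 1`, else `0`; `(γ - 1) p > -1`. -/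
theorem rv_ex_fin (hp : 1 < p) (h1 : (p - 1) / p < γ) (h2 : γ < 1) : rieszVar p (fx γ) ≠ ⊤ := by
  have hp0 : 0 < p := zero_lt_one.trans hp
  have hγ : 0 < γ := (div_pos (sub_pos.2 hp) hp0).trans h1
  have hq : -1 < (γ - 1) * p := by
    have := (div_lt_iff₀ hp0).1 h1
    linarith
  obtain ⟨ψ, hψ⟩ : ∃ ψ, ψ = (Ioc (0 : ℝ) 1).indicator fun s => γ * s ^ (γ - 1) := ⟨_, rfl⟩
  obtain ⟨χ, hχ⟩ : ∃ χ, χ = (Ioc (0 : ℝ) 1).indicator fun s => γ ^ p * s ^ ((γ - 1) * p) :=
    ⟨_, rfl⟩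
  have i1 : Integrable ψ := hψ ▸ ex2_int γ (by linarith)
  have i2 : Integrable χ := hχ ▸ ex2_int _ hq
  have e1 : ∀ x, |ψ x| ^ p = χ x := fun x => by
    rw [hψ, hχ]
    by_cases h : x ∈ Ioc (0 : ℝ) 1
    · have h3 := Real.rpow_nonneg h.1.le (γ - 1)
      rw [indicator_of_mem h, indicator_of_mem h, abs_of_nonneg (mul_nonneg hγ.le h3),
        Real.mul_rpow hγ.le h3, Real.rpow_mul h.1.le]
    · rw [indicator_of_notMem h, indicator_of_notMem h, abs_zero, Real.zero_rpow hp0.ne']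
  have e2 : ∀ x, x ≤ 0 → ψ x = 0 := fun x hx => by
    rw [hψ, indicator_of_notMem fun e => e.1.not_ge hx]
  have e3 : ∀ a b, ∫ s in a..b, ψ s = max (min b 1) 0 ^ γ - max (min a 1) 0 ^ γ := fun a b => by
    rw [← ex2_prim hγ a, ← ex2_prim hγ b, ← hψ,
      intervalIntegral.integral_interval_sub_left i1.intervalIntegrable i1.intervalIntegrable]
  refine ((rv_le hp (φ := fun x => ψ (-x) - ψ x)
    (fun a b => (i1.comp_neg.sub i1).intervalIntegrable) fun a b => ?_).trans_lt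
      (lt_of_eq_of_lt ?_ (i2.comp_neg.add i2).lintegral_lt_top)).ne
  · rw [intervalIntegral.integral_sub i1.comp_neg.intervalIntegrable i1.intervalIntegrable,
      intervalIntegral.integral_comp_neg, e3, e3, ex2_fx hγ, ex2_fx hγ]
    ring
  · refine lintegral_congr fun x => congrArg _ ?_
    rw [Pi.add_apply, ← e1, ← e1]
    rcases le_total x 0 with h | h
    · rw [e2 x h, sub_zero, abs_zero, Real.zero_rpow hp0.ne', add_zero]
    · rw [e2 _ (neg_nonpos.2 h), zero_sub, abs_neg, abs_zero, Real.zero_rpow hp0.ne', zero_add]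

/-- The partition `0, 1`. -/
theorem rv_ex_pos (hp : 1 < p) (hγ : 0 < γ) : 1 ≤ rieszVar p (fx γ) := by
  refine le_trans (le_of_eq ?_) (sum_le_rv p (fx γ) 1 (x := fun i => (i : ℝ)) Nat.mono_cast)
  simp [fx, Real.zero_rpow hγ.ne']

theorem ex3_abs (x : ℝ) : |max (-1) (min x 1)| ≤ 1 :=
  abs_le.2 ⟨le_max_left _ _, max_le (by norm_num) (min_le_right _ _)⟩

theorem ex3_fx (hγ : 0 < γ) (x : ℝ) : fx γ x = 1 - |max (-1) (min x 1)| ^ γ := by
  unfold fx
  rcases le_total |x| 1 with h | h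
  · rw [min_eq_left (abs_le.1 h).2, max_eq_right (abs_le.1 h).1,
      max_eq_left (sub_nonneg.2 (Real.rpow_le_one (abs_nonneg x) h hγ.le))]
  · have e : |max (-1) (min x 1)| = 1 := by
      rcases le_abs.1 h with h1 | h1
      · rw [min_eq_right h1, max_eq_right (by norm_num), abs_one]
      · rw [max_eq_left ((min_le_left _ _).trans (by linarith)), abs_neg, abs_one]
    rw [e, Real.one_rpow, sub_self, max_eq_right (sub_nonpos.2 (Real.one_le_rpow h hγ.le))]

theorem ex3_lip {a b : ℝ} (h : a ≤ b) : max (-1) (min b 1) - max (-1) (min a 1) ≤ b - a := by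
  simp only [max_def, min_def]
  split_ifs <;> linarith

/-- Clamp the nodes to `[-1, 1]`: the values of `fx γ` do not change, the steps get shorter, and
there `g` has `k` times the increments of `fx γ`. -/
theorem rv_ex_ge (hp : 1 < p) (hγ : 0 < γ) {k : ℝ} (hk : 0 < k) {g : ℝ → ℝ}
    (hg : ∀ x, |x| ≤ 1 → g x = 1 - k * |x| ^ γ) :
    ENNReal.ofReal (k ^ p) * rieszVar p (fx γ) ≤ rieszVar p g := by
  have hc : Monotone fun x : ℝ => max (-1) (min x 1) :=
    fun a b h => max_le_max le_rfl (min_le_min h le_rfl)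
  conv_lhs => unfold rieszVar
  simp only [ENNReal.mul_iSup]
  refine iSup_le fun n => iSup₂_le fun x hx => ?_
  rw [← ENNReal.ofReal_mul (Real.rpow_nonneg hk.le _), Finset.mul_sum]
  refine le_trans (ENNReal.ofReal_le_ofReal (Finset.sum_le_sum fun i _ => ?_))
    (sum_le_rv p g n (hc.comp hx))
  have h1 := hx (Nat.le_succ i)
  have h2 := ex3_lip h1
  have h3 : max (-1) (min (x i) 1) ≤ max (-1) (min (x (i + 1)) 1) := hc h1
  simp only [Function.comp_apply]
  rw [ex3_fx hγ, ex3_fx hγ, hg _ (ex3_abs _), hg _ (ex3_abs _)]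
  generalize max (-1) (min (x i) 1) = a at h2 h3 ⊢
  generalize max (-1) (min (x (i + 1)) 1) = b at h2 h3 ⊢
  rcases h3.eq_or_lt with rfl | h4
  · simp [Real.zero_rpow (show p ≠ 0 by linarith)]
  rw [show 1 - k * |b| ^ γ - (1 - k * |a| ^ γ) = k * (1 - |b| ^ γ - (1 - |a| ^ γ)) by ring,
    abs_mul, abs_of_pos hk, Real.mul_rpow hk.le (abs_nonneg _), mul_div_assoc]
  refine mul_le_mul_of_nonneg_left ?_ (Real.rpow_nonneg hk.le _)
  exact div_le_div_of_nonneg_left (Real.rpow_nonneg (abs_nonneg _) _)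
    (Real.rpow_pos_of_pos (sub_pos.2 h4) _)
    (Real.rpow_le_rpow (sub_pos.2 h4).le h2 (by linarith))

end Pool.Agent.Lib.MP_25e49d_an.Sob
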