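import Pool.Agent.Lib.MP_25e49d_an.Sob.Two
import Pool.Agent.Lib.MP_25e49d_an.Sob.App
import Pool.Agent.Lib.MP_25e49d_an.Sob.Ex

/-! The sharp inequality. -/

set_option autoImplicit false

open MeasureTheory Set Filter Topology
open scoped ENNReal NNReal

namespace Pool.Agent.Lib.MP_25e49d_an.Sob

theorem upper {p c τ : ℝ} (hP : Par p c τ) {f : ℝ → ℝ} {B : ℝ} (hB : ∀ x, |f x| ≤ B) :
    rieszVar p (Mx f) ≤ ENNReal.ofReal (c ^ p) * rieszVar p f := by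
  have hp := hP.hp
  by_cases hV : rieszVar p f = ⊤
  · rw [hV, ENNReal.mul_top (ENNReal.ofReal_pos.2 (Real.rpow_pos_of_pos hP.c0 p)).ne']
    exact le_top
  have hf := rv_cont hp hV
  have hε : Tendsto (fun n : ℕ => 1 / ((n : ℝ) + 1)) atTop (𝓝 0) :=
    tendsto_one_div_add_atTop_nhds_zero_nat
  choose g L R hl hz h1 h2 h3 using fun n : ℕ =>
    approx hp hf hB hV (ε := 1 / ((n : ℝ) + 1)) Nat.one_div_pos_of_nat (n : ℝ)
  refine rv_lsc hp (u := fun n => Mx (g n))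
    (Mx_tendsto hf hB (fun n => (hl n).continuous) hε h1 h2)
    (V := fun n : ℕ => ENNReal.ofReal (c ^ p) *
      (rieszVar p f + ENNReal.ofReal (1 / ((n : ℝ) + 1)))) ?_ fun n => ?_
  · refine ENNReal.Tendsto.const_mul ?_ (Or.inr ENNReal.ofReal_ne_top)
    have h4 := (ENNReal.tendsto_ofReal hε).const_add (rieszVar p f)
    rwa [ENNReal.ofReal_zero, add_zero] at h4
  · obtain ⟨h4, h5⟩ := two hP (hl n) (hz n)
    exact (rv_lip hp h4).trans (h5.trans (mul_le_mul_right (h3 n) _))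

theorem lower {p c : ℝ} (hp : 1 < p) (hc : 0 < c)
    (he : (p - 1) * c ^ ((2 * p - 1) / (p - 1)) + (2 * p - 1) * c = p) {C : ℝ} (hC : 0 ≤ C)
    (h : ∀ f : ℝ → ℝ, (∃ B, ∀ x, |f x| ≤ B) →
      rieszVar p (Mx f) ≤ ENNReal.ofReal (C ^ p) * rieszVar p f) : c ≤ C := by
  refine root_le hp hc he fun γ h1 h2 => ?_
  have hp0 : 0 < p := by linarith
  have hγ : 0 < γ := lt_trans (div_pos (by linarith) hp0) h1
  obtain ⟨t, ht, ht1, hte⟩ := exists_tau hγ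
  refine ⟨t, ht, hte, ?_⟩
  have hk : 0 < t ^ γ := Real.rpow_pos_of_pos ht γ
  have hb : ∀ x, |fx γ x| ≤ 1 := fun x => by
    have h3 : 0 ≤ |x| ^ γ := Real.rpow_nonneg (abs_nonneg x) γ
    unfold fx
    rw [abs_of_nonneg (le_max_right _ _)]
    exact max_le (by linarith) zero_le_one
  have h3 := (rv_ex_ge hp hγ hk (g := Mx (fx γ)) fun x hx => Mx_ex hγ ht ht1 hte hx).trans
    (h (fx γ) ⟨1, hb⟩)
  have h4 : rieszVar p (fx γ) ≠ 0 := (lt_of_lt_of_le zero_lt_one (rv_ex_pos hp hγ)).ne'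
  rw [ENNReal.mul_le_mul_iff_left h4 (rv_ex_fin hp h1 h2),
    ENNReal.ofReal_le_ofReal_iff (Real.rpow_nonneg hC p)] at h3
  exact (Real.rpow_le_rpow_iff hk.le hC hp0).1 h3

end Pool.Agent.Lib.MP_25e49d_an.Sob
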