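import Pool.Agent.Lib.MP_25e49d_an.Sob.A

/-! The uncentred maximal function is the larger one-sided one. -/

set_option autoImplicit false

open MeasureTheory Set Filter Topology
open scoped ENNReal NNReal

namespace Pool.Agent.Lib.MP_25e49d_an.Sob

theorem mxeq_neg (g : ℝ → ℝ) (a b : ℝ) : avg (fun s => g (-s)) (-b) (-a) = avg g a b := by
  unfold avg
  rw [intervalIntegral.integral_comp_neg, neg_neg, neg_neg]
  congr 1
  ring

theorem mxeq_val (g : ℝ → ℝ) (y t : ℝ) :
    (2 * t)⁻¹ * ∫ s in (y - t)..(y + t), g s = avg g (y - t) (y + t) := by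
  unfold avg
  rw [show y + t - (y - t) = 2 * t by ring, div_eq_inv_mul]

theorem mxeq_le {g : ℝ → ℝ} (hg : Continuous g) {B : ℝ} (hB : ∀ x, g x ≤ B) {a x b : ℝ}
    (h1 : a ≤ x) (h2 : x ≤ b) (hab : a < b) :
    avg g a b ≤ max (GR g x) (GR (fun s => g (-s)) (-x)) := by
  have r : ∀ z, x < z → avg g x z ≤ GR g x := fun z h => avg_le_GR hg hB h
  have l : ∀ z, z < x → avg g z x ≤ GR (fun s => g (-s)) (-x) := fun z h => by
    rw [← mxeq_neg]
    exact avg_le_GR (f := fun s => g (-s)) (hg.comp continuous_neg) (fun s => hB _)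
      (neg_lt_neg h)
  rcases h1.eq_or_lt with e | h1
  · subst e
    exact le_max_of_le_left (r b hab)
  rcases h2.eq_or_lt with e | h2
  · subst e
    exact le_max_of_le_right (l a hab)
  have k := avg_split hg h1 h2
  have k1 := (l a h1).trans (le_max_right (GR g x) _)
  have k2 := (r b h2).trans (le_max_left _ (GR (fun s => g (-s)) (-x)))
  have k3 := mul_le_mul_of_nonneg_right k1 (sub_pos.2 h1).le
  have k4 := mul_le_mul_of_nonneg_right k2 (sub_pos.2 h2).le
  refine le_of_mul_le_mul_right ?_ (sub_pos.2 hab)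
  rw [k]
  linarith

/-- An interval `[a, b] ∋ x` is split at `x` (`avg_split`); conversely `[x, z]` and `[z, x]` are
admissible; reflect with `intervalIntegral.integral_comp_neg`. -/
theorem Mx_eq {f : ℝ → ℝ} (hf : Continuous f) {B : ℝ} (hB : ∀ x, |f x| ≤ B) (x : ℝ) :
    Mx f x = max (GR (fun s => |f s|) x) (GR (fun s => |f (-s)|) (-x)) := by
  have hg : Continuous fun s => |f s| := hf.abs
  have up : ∀ v ∈ {v : ℝ | ∃ y t : ℝ, 0 < t ∧ |x - y| ≤ t ∧
      v = (2 * t)⁻¹ * ∫ s in (y - t)..(y + t), |f s|},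
      v ≤ max (GR (fun s => |f s|) x) (GR (fun s => |f (-s)|) (-x)) := by
    rintro v ⟨y, t, ht, hy, rfl⟩
    rw [mxeq_val (fun s => |f s|) y t]
    have h := abs_le.1 hy
    exact mxeq_le hg hB (by linarith [h.1]) (by linarith [h.2]) (by linarith)
  have lo : ∀ a b : ℝ, a ≤ x → x ≤ b → a < b → avg (fun s => |f s|) a b ≤ Mx f x := by
    intro a b h1 h2 h3
    refine le_csSup ⟨_, up⟩ ⟨(a + b) / 2, (b - a) / 2, by linarith, ?_, ?_⟩
    · rw [abs_le]
      constructor <;> linarith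
    · rw [mxeq_val (fun s => |f s|)]
      congr 1 <;> ring
  refine le_antisymm (csSup_le ⟨_, x, 1, one_pos, by simp, rfl⟩ up) (max_le ?_ ?_)
  · exact GR_le fun z hz => lo x z le_rfl hz.le hz
  · refine GR_le fun z hz => ?_
    have e := mxeq_neg (fun s => |f s|) (-z) x
    rw [neg_neg] at e
    rw [e]
    exact lo (-z) x (by linarith) le_rfl (by linarith)

lemma m2_avg {f g : ℝ → ℝ} (hf : Continuous f) (hg : Continuous g) {y t e : ℝ} (ht : 0 < t)
    (h : ∀ s ∈ Icc (y - t) (y + t), |g s| ≤ |f s| + e) :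
    (2 * t)⁻¹ * ∫ s in (y - t)..(y + t), |g s| ≤
      (2 * t)⁻¹ * (∫ s in (y - t)..(y + t), |f s|) + e := by
  have h1 : ∫ s in (y - t)..(y + t), |g s| ≤ ∫ s in (y - t)..(y + t), (|f s| + e) :=
    intervalIntegral.integral_mono_on (by linarith) (hg.abs.intervalIntegrable _ _)
      ((hf.abs.add continuous_const).intervalIntegrable _ _) h
  rw [intervalIntegral.integral_add (hf.abs.intervalIntegrable _ _) intervalIntegrable_const,
    intervalIntegral.integral_const, smul_eq_mul] at h1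
  refine (mul_le_mul_of_nonneg_left h1 (by positivity)).trans_eq ?_
  field_simp
  ring

lemma m2_le {g : ℝ → ℝ} (hg : Continuous g) {C : ℝ} (hC : ∀ s, |g s| ≤ C) {x y t : ℝ}
    (ht : 0 < t) (hy : |x - y| ≤ t) : (2 * t)⁻¹ * ∫ s in (y - t)..(y + t), |g s| ≤ Mx g x := by
  refine le_csSup ⟨C, ?_⟩ ⟨y, t, ht, hy, rfl⟩
  rintro _ ⟨y, t, ht, -, rfl⟩
  simpa using m2_avg (f := fun _ => 0) continuous_const hg ht (y := y) (e := C)
    fun s _ => by simpa using hC s

/-- Upper half: every average of `|g n|` is at most the average of `|f|` plus `ε n`. Lower half: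
for a fixed interval inside `[-n, n]` the average of `|f|` is at most that of `|g n|` plus
`ε n`. -/
theorem Mx_tendsto {f : ℝ → ℝ} (hf : Continuous f) {B : ℝ} (hB : ∀ x, |f x| ≤ B) {g : ℕ → ℝ → ℝ}
    (hg : ∀ n, Continuous (g n)) {ε : ℕ → ℝ} (hε : Tendsto ε atTop (𝓝 0))
    (h1 : ∀ n x, |g n x| ≤ |f x| + ε n) (h2 : ∀ (n : ℕ) (x : ℝ), |x| ≤ n → |g n x - f x| ≤ ε n)
    (x : ℝ) : Tendsto (fun n => Mx (g n) x) atTop (𝓝 (Mx f x)) := by
  have hne : ∀ k : ℝ → ℝ, {v : ℝ | ∃ y t : ℝ, 0 < t ∧ |x - y| ≤ t ∧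
      v = (2 * t)⁻¹ * ∫ s in (y - t)..(y + t), |k s|}.Nonempty := fun k =>
    ⟨_, x, 1, one_pos, by simp, rfl⟩
  have hup : ∀ n, Mx (g n) x ≤ Mx f x + ε n := fun n => by
    refine csSup_le (hne _) ?_
    rintro _ ⟨y, t, ht, hy, rfl⟩
    exact (m2_avg hf (hg n) ht fun s _ => h1 n s).trans
      (add_le_add_left (m2_le hf hB ht hy) _)
  refine tendsto_order.2 ⟨fun a ha => ?_, fun a ha => ?_⟩
  · obtain ⟨_, ⟨y, t, ht, hy, rfl⟩, h3⟩ := exists_lt_of_lt_csSup (hne f) ha
    filter_upwards [hε.eventually (gt_mem_nhds (sub_pos.2 h3)),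
      tendsto_natCast_atTop_atTop.eventually_ge_atTop (|y| + t)] with n h4 h5
    have h6 := m2_avg (hg n) hf ht (y := y) (e := ε n) fun s hs => by
      have h7 : |s| ≤ n := abs_le.2
        ⟨by linarith [hs.1, neg_abs_le y], by linarith [hs.2, le_abs_self y]⟩
      have h8 := abs_sub_abs_le_abs_sub (f s) (g n s)
      rw [abs_sub_comm] at h8
      linarith [h2 n s h7]
    have h9 := m2_le (hg n) (C := B + ε n) (fun s => (h1 n s).trans (by linarith [hB s])) ht hy
    linarith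
  · filter_upwards [hε.eventually (gt_mem_nhds (sub_pos.2 ha))] with n h4
    linarith [hup n]

end Pool.Agent.Lib.MP_25e49d_an.Sob
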