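import Pool.Agent.Lib.MP_25e49d_an.Sob.Core
import Pool.Agent.Lib.MP_25e49d_an.Sob.M

/-! The inequality for Lipschitz functions with compact support. -/

set_option autoImplicit false

open MeasureTheory Set Filter Topology
open scoped ENNReal NNReal

namespace Pool.Agent.Lib.MP_25e49d_an.Sob

theorem two_min {g h : ℝ → ℝ} {a b x : ℝ} (hg : HasDerivAt g a x) (hh : HasDerivAt h b x)
    (hle : ∀ z, h z ≤ g z) (he : g x = h x) : a = b := by
  have h1 : IsLocalMin (fun z => g z - h z) x :=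
    Eventually.of_forall fun z => by
      show g x - h x ≤ g z - h z
      linarith [hle z]
  exact sub_eq_zero.1 (h1.hasDerivAt_eq_zero (hg.sub hh))

theorem two_En {p : ℝ} (hp : 0 < p) (g : ℝ → ℝ) : En p g = Ep p g + Em p g := by
  have hm : Measurable fun x => ENNReal.ofReal (max (deriv g x) 0 ^ p) :=
    (((measurable_deriv g).max measurable_const).pow_const p).ennreal_ofReal
  rw [En, Ep, Em, ← lintegral_add_left hm]
  refine lintegral_congr fun x => ?_
  rcases le_total 0 (deriv g x) with h | h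
  · rw [abs_of_nonneg h, max_eq_left h, max_eq_right (neg_nonpos.2 h), Real.zero_rpow hp.ne',
      ENNReal.ofReal_zero, add_zero]
  · rw [abs_of_nonpos h, max_eq_right h, max_eq_left (neg_nonneg.2 h), Real.zero_rpow hp.ne',
      ENNReal.ofReal_zero, zero_add]

theorem two_Ep_neg (p : ℝ) (g : ℝ → ℝ) : Ep p (fun s => g (-s)) = Em p g := by
  rw [Ep, Em, ← lintegral_neg_eq_self fun x => ENNReal.ofReal (max (-deriv g x) 0 ^ p)]
  simp only [deriv_comp_neg]

theorem two_Em_neg (p : ℝ) (g : ℝ → ℝ) : Em p (fun s => g (-s)) = Ep p g := by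
  rw [Ep, Em, ← lintegral_neg_eq_self fun x => ENNReal.ofReal (max (deriv g x) 0 ^ p)]
  simp only [deriv_comp_neg, neg_neg]

theorem two_lip_neg {g : ℝ → ℝ} {L : ℝ≥0} (h : LipschitzWith L g) :
    LipschitzWith L fun s => g (-s) :=
  LipschitzWith.of_dist_le_mul fun x y => by simpa using h.dist_le_mul (-x) (-y)

theorem two_lip {u v g : ℝ → ℝ} {L : ℝ≥0} {R : ℝ} (hu : Nice u L R) (hv : Nice v L R)
    (hg : ∀ x, g x = max (GR u x) (GR v (-x))) : LipschitzWith L g := by
  have h := (GR_lip hu).max (two_lip_neg (GR_lip hv))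
  rw [max_self] at h
  rwa [show g = fun x => max (GR u x) (GR v (-x)) from funext hg]

theorem two_Ep {p : ℝ} (hp : 0 < p) {u v g : ℝ → ℝ} {L : ℝ≥0} {R : ℝ} (hu : Nice u L R)
    (hv : Nice v L R) (huv : ∀ x, v (-x) = u x) (hg : ∀ x, g x = max (GR u x) (GR v (-x))) :
    Ep p g ≤ Ep p (GR u) := by
  obtain ⟨B, hB⟩ := hu.bdd
  obtain ⟨y, hy⟩ := exists_opt hv
  refine lintegral_mono_ae ?_
  filter_upwards [(two_lip hu hv hg).ae_differentiableAt_real, (GR_lip hu).ae_differentiableAt_real,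
    (two_lip_neg (GR_lip hv)).ae_differentiableAt_real] with x h0 h1 h2
  refine ENNReal.ofReal_le_ofReal (Real.rpow_le_rpow (le_max_right _ _) ?_ hp.le)
  rcases le_or_gt (GR v (-x)) (GR u x) with h | h
  · rw [two_min h0.hasDerivAt h1.hasDerivAt (fun z => (hg z).ge.trans' (le_max_left _ _))
      ((hg x).trans (max_eq_left h))]
  · have e := two_min h0.hasDerivAt h2.hasDerivAt (fun z => (hg z).ge.trans' (le_max_right _ _))
      ((hg x).trans (max_eq_right h.le))
    have h3 : v (-x) < GR v (-x) := by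
      rw [huv]
      exact (le_GR hu.lip.continuous hB x).trans_lt h
    have h4 : DifferentiableAt ℝ (GR v) (-x) := by
      have h5 : DifferentiableAt ℝ (fun s => GR v (-s)) (- -x) := by rwa [neg_neg]
      have h6 := h5.comp (-x) (hasDerivAt_neg (-x)).differentiableAt
      rwa [show (fun s => GR v (-s)) ∘ Neg.neg = GR v from funext fun s => by simp] at h6
    have h5 := hy.deriv hv h3 h4.hasDerivAt
    have h6 : 0 ≤ deriv (GR v) (-x) :=
      h5 ▸ div_nonneg (sub_nonneg.2 h3.le) (sub_nonneg.2 (hy.lt _ h3).le)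
    rw [e, deriv_comp_neg, max_eq_right (neg_nonpos.2 h6)]
    exact le_max_right _ _

theorem two_abs {p : ℝ} {f : ℝ → ℝ} {L : ℝ≥0} (hl : LipschitzWith L f)
    (hu : LipschitzWith L fun s => |f s|) : En p (fun s => |f s|) ≤ En p f := by
  refine lintegral_mono_ae ?_
  filter_upwards [hl.ae_differentiableAt_real, hu.ae_differentiableAt_real] with x h0 h1
  rcases le_total 0 (f x) with h | h
  · rw [two_min h1.hasDerivAt h0.hasDerivAt (fun z => le_abs_self _) (abs_of_nonneg h)]
  · rw [two_min h1.hasDerivAt h0.hasDerivAt.neg (fun z => neg_le_abs _) (abs_of_nonpos h), abs_neg]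

/-- `u = |f|`, `u' = u ∘ neg` are `Nice`; `g = Mx f = max G₁ G₂`, `G₁ = GR u`, `G₂ x = GR u' (-x)`.
Where `g, G₁, G₂` are differentiable (a.e.): `max g' 0 ≤ max G₁' 0` (if `g x = G₁ x` the
derivatives agree, `g - G₁` having a minimum; else `G₂ x > G₁ x ≥ u x`, `g' = G₂' < 0` by
`exists_opt`, `Opt.deriv`), and the mirror image. `En = Ep + Em`; `Ep u' = Em u`, `Em u' = Ep u`,
`Em G₂ = Ep (GR u')` (`deriv_comp_neg`, `lintegral_neg_eq_self`); `|deriv u| ≤ |deriv f|` a.e.;
add `core` for `u` and `u'`, `Par.sum`, cancel the positive finite factor. -/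
theorem two {p c τ : ℝ} (hP : Par p c τ) {f : ℝ → ℝ} {L : ℝ≥0} {R : ℝ} (hl : LipschitzWith L f)
    (hz : ∀ x, R ≤ |x| → f x = 0) :
    LipschitzWith L (Mx f) ∧ En p (Mx f) ≤ ENNReal.ofReal (c ^ p) * En p f := by
  have hp : 0 < p := zero_lt_one.trans hP.hp
  have hlu : LipschitzWith L fun s => |f s| := LipschitzWith.of_dist_le_mul fun x y =>
    (abs_abs_sub_abs_le_abs_sub _ _).trans (hl.dist_le_mul x y)
  have hu : Nice (fun s => |f s|) L R :=
    ⟨hlu, fun _ => abs_nonneg _, fun x hx => by rw [hz x hx, abs_zero]⟩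
  have hv : Nice (fun s => |f (-s)|) L R :=
    ⟨two_lip_neg hlu, fun _ => abs_nonneg _, fun x hx => by
      rw [hz (-x) (by rwa [abs_neg]), abs_zero]⟩
  obtain ⟨B, hB⟩ := hu.bdd
  have hg := Mx_eq hl.continuous hB
  refine ⟨two_lip hu hv hg, ?_⟩
  have h1 := two_Ep hp hu hv (fun x => by rw [neg_neg]) hg
  have h2 : Em p (Mx f) ≤ Ep p (GR fun s => |f (-s)|) := by
    rw [← two_Ep_neg]
    exact two_Ep hp hv hu (fun _ => rfl) fun x => by rw [hg, neg_neg, max_comm]
  have c1 := core hP hu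
  have c2 := core hP hv
  rw [two_Ep_neg p fun s => |f s|, two_Em_neg p fun s => |f s|] at c2
  have hk : 0 < (1 / c + τ) / p := div_pos (add_pos (one_div_pos.2 hP.c0) hP.t0) hp
  have hA : 0 ≤ c ^ (p - 1) / p := div_nonneg (Real.rpow_nonneg hP.c0.le _) hp.le
  have hT : 0 ≤ τ ^ p / p := div_nonneg (Real.rpow_nonneg hP.t0.le _) hp.le
  have hs : ENNReal.ofReal (c ^ (p - 1) / p) + ENNReal.ofReal (τ ^ p / p) =
      ENNReal.ofReal ((1 / c + τ) / p) * ENNReal.ofReal (c ^ p) := by
    rw [← ENNReal.ofReal_add hA hT, hP.sum, mul_comm, ENNReal.ofReal_mul hk.le]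
  refine (ENNReal.mul_le_mul_iff_right (ENNReal.ofReal_pos.2 hk).ne' ENNReal.ofReal_ne_top).1 ?_
  calc ENNReal.ofReal ((1 / c + τ) / p) * En p (Mx f)
      ≤ ENNReal.ofReal ((1 / c + τ) / p) * Ep p (GR fun s => |f s|) +
        ENNReal.ofReal ((1 / c + τ) / p) * Ep p (GR fun s => |f (-s)|) := by
        rw [two_En hp, ← mul_add]
        exact mul_le_mul_right (add_le_add h1 h2) _
    _ ≤ _ := add_le_add c1 c2
    _ = (ENNReal.ofReal (c ^ (p - 1) / p) + ENNReal.ofReal (τ ^ p / p)) * En p fun s => |f s| := by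
        rw [two_En hp]
        ring
    _ ≤ _ := by
        rw [hs, mul_assoc]
        exact mul_le_mul_right (mul_le_mul_right (two_abs hl hlu) _) _

end Pool.Agent.Lib.MP_25e49d_an.Sob
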